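import Pool.Agent.Lib.H7R.Main

/-!
# From the suppression theorem to large gaps between primes
-/

set_option autoImplicit false

namespace Pool.Agent.H7R

open Finset Filter
open Pool.Agent.Lib.Sieve

/-- The suppression theorem with the constant `c0` (for large `x`). -/
def Suppression (c0 : ℝ) : Prop := ∀ᶠ x : ℝ in atTop, ∀ (M : ℕ) (B : Finset ℕ),
  (∀ p : ℕ, p.Prime → Real.log x ^ 4 < p → ¬ p ∣ M) →
  (∀ b ∈ B, ∀ b' ∈ B, b < b' → ∀ p : ℕ, p.Prime → Real.log x ^ 4 < p → ¬ p ∣ b' - b) →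
  (∀ b ∈ B, x ^ (1 / 40 : ℝ) < b) →
  (B.card : ℝ) ≤ c0 * Real.log x →
  ∃ t : ℕ, (t : ℝ) ≤ x ^ (1 / 2 : ℝ) ∧ ∀ b ∈ B, ¬ (b + M * t).Prime

/-- `log x (log₂ x)² log₄ x / (log₃ x)²` -/
noncomputable def gapFn (x : ℝ) : ℝ :=
  Real.log x * Real.log (Real.log x) ^ 2 * Real.log (Real.log (Real.log (Real.log x))) /
    Real.log (Real.log (Real.log x)) ^ 2

/-- Two consecutive primes around a prime free interval. -/
theorem exists_gap (N H : ℕ) (hN : 2 ≤ N) (h : ∀ h ∈ Finset.Icc 1 H, ¬ (N + h).Prime) :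
    ∃ n, Nat.nth Nat.Prime n ≤ N ∧ N + H < Nat.nth Nat.Prime (n + 1) := by
  have hinf := Nat.infinite_setOfPred_prime
  have h1 : 0 < Nat.count Nat.Prime (N + 1) := by
    have h2 : Nat.count Nat.Prime 3 ≤ Nat.count Nat.Prime (N + 1) := Nat.count_monotone _ (by omega)
    have h3 : Nat.count Nat.Prime 3 = 1 := by decide
    omega
  set k := Nat.count Nat.Prime (N + 1) with hk
  refine ⟨k - 1, ?_, ?_⟩
  · have h2 : Nat.nth Nat.Prime (k - 1) < N + 1 := Nat.nth_lt_of_lt_count (by omega)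
    omega
  · have h2 : Nat.nth Nat.Prime (k - 1) < N + 1 := Nat.nth_lt_of_lt_count (by omega)
    have h3 : k - 1 + 1 = k := by omega
    rw [h3]
    have h4 : N + 1 ≤ Nat.nth Nat.Prime k := Nat.le_nth_count hinf (N + 1)
    have h5 : (Nat.nth Nat.Prime k).Prime := Nat.prime_nth_prime k
    have h6 : N + H < Nat.nth Nat.Prime k := by
      by_contra hc
      push Not at hc
      refine h (Nat.nth Nat.Prime k - N) ?_ ?_
      · rw [Finset.mem_Icc]; omega
      · rw [show N + (Nat.nth Nat.Prime k - N) = Nat.nth Nat.Prime k by omega]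
        exact h5
    exact h6

/-- One step: a prime free interval from the suppression theorem. -/
theorem exists_free (c0 : ℝ) (hc0 : 0 < c0) (hS : Suppression c0) :
    ∃ c : ℝ, 0 < c ∧ ∀ᶠ x : ℝ in atTop, ∃ N : ℕ, 2 ≤ N ∧ (N : ℝ) ≤ x ∧
      ∀ h ∈ Finset.Icc 1 ⌊c * rankinFn (⌊Real.log x / 8⌋₊ : ℕ)⌋₊, ¬ (N + h).Prime := by
  set c : ℝ := min 1 (c0 / 26) with hc
  have hcpos : 0 < c := lt_min one_pos (by positivity)
  have hc1 : c ≤ 1 := min_le_left _ _
  have hc2 : 26 * c ≤ c0 := by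
    have : c ≤ c0 / 26 := min_le_right _ _
    linarith
  refine ⟨c, hcpos, ?_⟩
  have ty : Tendsto (fun x : ℝ => ⌊Real.log x / 8⌋₊) atTop atTop :=
    tendsto_nat_floor_atTop.comp (Real.tendsto_log_atTop.atTop_div_const (by norm_num))
  have e1 := ty.eventually (exists_residue c hcpos hc1)
  have e2 := ty.eventually (eventually_cond 80)
  filter_upwards [e1, e2, hS, eventually_ge_atTop (Real.exp 1000)] with x h1 h2 h3 h4
  set y := ⌊Real.log x / 8⌋₊ with hy
  set H := ⌊c * rankinFn y⌋₊ with hH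
  obtain ⟨a, ha⟩ := h1
  obtain ⟨h21, h22, h23, h24⟩ := h2
  have hx0 : 0 < x := lt_of_lt_of_le (Real.exp_pos _) h4
  have hL : 1000 ≤ Real.log x := by
    rw [Real.le_log_iff_exp_le hx0]; exact h4
  set L := Real.log x with hLdef
  have hyL : (y : ℝ) ≤ L / 8 := Nat.floor_le (by linarith)
  have hy2 : (2 : ℝ) ≤ y := by exact_mod_cast h24
  -- bound for H
  set l := Real.log y with hl
  set l2 := Real.log l with hl2
  set l3 := Real.log l2 with hl3
  have hl20 : 0 < l2 := by linarith
  have hl0 : 0 < l := by linarith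
  have h32 : l3 ≤ l2 := by
    have := Real.log_le_sub_one_of_pos hl20
    rw [← hl3] at this
    linarith
  have hR : rankinFn y = y * l ^ 2 * l3 / l2 ^ 2 := rfl
  have hR0 : 0 ≤ c * rankinFn y := by
    rw [hR]; positivity
  have hly : l ≤ y := by
    have := Real.log_le_sub_one_of_pos (show (0 : ℝ) < y by linarith)
    rw [← hl] at this
    linarith
  have hH1 : (H : ℝ) ≤ y * l ^ 2 := by
    refine (Nat.floor_le hR0).trans ?_
    rw [hR]
    have h5 : l3 / l2 ^ 2 ≤ 1 := by
      rw [div_le_one (by positivity)]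
      nlinarith
    have h6 : (0 : ℝ) ≤ y * l ^ 2 := by positivity
    calc c * (y * l ^ 2 * l3 / l2 ^ 2) = c * ((y * l ^ 2) * (l3 / l2 ^ 2)) := by ring
      _ ≤ 1 * ((y * l ^ 2) * 1) := by
          apply mul_le_mul hc1 _ (by positivity) (by norm_num)
          exact mul_le_mul_of_nonneg_left h5 h6
      _ = _ := by ring
  have hH2 : (H : ℝ) ≤ L ^ 4 := by
    refine hH1.trans ?_
    have h5 : (y : ℝ) ≤ L := by linarith
    have h6 : l ≤ L := by linarith
    calc (y : ℝ) * l ^ 2 ≤ L * L ^ 2 := by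
          apply mul_le_mul h5 _ (by positivity) (by linarith)
          exact pow_le_pow_left₀ hl0.le h6 2
      _ = L ^ 3 := by ring
      _ ≤ L ^ 4 := pow_le_pow_right₀ (by linarith) (by norm_num)
  have hyL4 : (y : ℝ) ≤ L ^ 4 := by
    have h5 : (y : ℝ) ≤ L := by linarith
    exact h5.trans (le_self_pow₀ (by linarith) (by norm_num))
  -- the modulus
  set M := primorial y with hM
  have hM0 : 0 < M := primorial_pos y
  set K := ⌈x ^ (1 / 40 : ℝ)⌉₊ + 1 with hK
  have hK1 : x ^ (1 / 40 : ℝ) < K := by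
    rw [hK]; push_cast
    have := Nat.le_ceil (x ^ (1 / 40 : ℝ))
    linarith
  have hK2 : (K : ℝ) ≤ x ^ (1 / 40 : ℝ) + 2 := by
    rw [hK]; push_cast
    have := Nat.ceil_lt_add_one (show (0 : ℝ) ≤ x ^ (1 / 40 : ℝ) by positivity)
    linarith
  set a' := a % M + M * K with ha'
  have hcop : ∀ h, Nat.Coprime (a' + h) M ↔ Nat.Coprime (a + h) M := by
    intro h
    have h5 : a' + h = (a % M + h) + M * K := by rw [ha']; ring
    rw [h5, Nat.coprime_add_mul_left_left]
    have h6 : a + h = (a % M + h) + M * (a / M) := by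
      have := Nat.mod_add_div a M
      omega
    rw [h6, Nat.coprime_add_mul_left_left]
  classical
  set B := ((Finset.Icc 1 H).filter fun h => Nat.Coprime (a + h) M).image (fun h => a' + h)
    with hB
  have hKa : K ≤ a' := by
    rw [ha']
    have : K ≤ M * K := Nat.le_mul_of_pos_left K hM0
    omega
  obtain ⟨t, ht1, ht2⟩ := h3 M B
    (by
      intro p hp hpL hd
      have h5 := (hp.dvd_primorial_iff).mp hd
      have h6 : (p : ℝ) ≤ y := by exact_mod_cast h5
      linarith)
    (by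
      intro b hb b' hb' hbb p hp hpL hd
      rw [hB, Finset.mem_image] at hb hb'
      obtain ⟨u, hu, rfl⟩ := hb
      obtain ⟨u', hu', rfl⟩ := hb'
      rw [Finset.mem_filter, Finset.mem_Icc] at hu hu'
      have h5 : p ≤ a' + u' - (a' + u) := Nat.le_of_dvd (by omega) hd
      have h6 : (p : ℝ) ≤ H := by exact_mod_cast (show p ≤ H by omega)
      linarith)
    (by
      intro b hb
      rw [hB, Finset.mem_image] at hb
      obtain ⟨u, hu, rfl⟩ := hb
      have : (K : ℝ) ≤ ((a' + u : ℕ) : ℝ) := by exact_mod_cast hKa.trans (Nat.le_add_right _ _)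
      linarith)
    (by
      have h5 : (B.card : ℝ) ≤ 208 * c * y := by
        refine le_trans ?_ ha
        exact_mod_cast Finset.card_image_le
      have h6 : 208 * c * y ≤ 208 * c * (L / 8) :=
        mul_le_mul_of_nonneg_left hyL (by positivity)
      have h7 : 208 * c * (L / 8) = (26 * c) * L := by ring
      have h8 : (26 * c) * L ≤ c0 * L := mul_le_mul_of_nonneg_right hc2 (by linarith)
      linarith)
  refine ⟨a' + M * t, ?_, ?_, ?_⟩
  · have hK3 : 1 < K := by
      have h5 : (1 : ℝ) ≤ x ^ (1 / 40 : ℝ) := by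
        apply Real.one_le_rpow _ (by norm_num)
        have := Real.add_one_le_exp (1000 : ℝ)
        linarith
      have : (1 : ℝ) < K := by linarith
      exact_mod_cast this
    omega
  · -- the size
    have h5 : (M : ℝ) ≤ x ^ (1 / 5 : ℝ) := by
      have h6 : (M : ℝ) ≤ (4 : ℝ) ^ y := by exact_mod_cast primorial_le_four_pow y
      refine h6.trans ?_
      rw [Real.rpow_def_of_pos hx0, ← Real.rpow_natCast, Real.rpow_def_of_pos (by norm_num)]
      apply Real.exp_le_exp.mpr
      have h7 : Real.log 4 ≤ 3 / 2 := by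
        have : Real.log 4 = 2 * Real.log 2 := by
          rw [show (4 : ℝ) = 2 ^ 2 by norm_num, Real.log_pow]; norm_num
        have h2' := Real.log_two_lt_d9
        linarith
      have h8 : (0 : ℝ) ≤ y := by positivity
      calc Real.log 4 * y ≤ (3 / 2) * (L / 8) := mul_le_mul h7 hyL h8 (by norm_num)
        _ ≤ L * (1 / 5) := by linarith
    have h6 : ((a' + M * t : ℕ) : ℝ) ≤ M * (K + 1 + t) := by
      have h7 : a' + M * t ≤ M * (K + 1 + t) := by
        rw [ha']
        have := (Nat.mod_lt a hM0).le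
        calc a % M + M * K + M * t ≤ M + M * K + M * t := by omega
          _ = M * (K + 1 + t) := by ring
      exact_mod_cast h7
    refine h6.trans ?_
    have h8 : x ^ (1 / 40 : ℝ) ≤ x ^ (1 / 2 : ℝ) := by
      apply Real.rpow_le_rpow_of_exponent_le _ (by norm_num)
      have := Real.add_one_le_exp (1000 : ℝ)
      linarith
    have h9 : (5 : ℝ) ≤ x ^ (1 / 10 : ℝ) := by
      rw [Real.rpow_def_of_pos hx0]
      have := Real.add_one_le_exp (L * (1 / 10))
      linarith
    have h10 : (3 : ℝ) ≤ x ^ (1 / 2 : ℝ) := by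
      rw [Real.rpow_def_of_pos hx0]
      have := Real.add_one_le_exp (L * (1 / 2))
      linarith
    have h11 : (K : ℝ) + 1 + t ≤ x ^ (1 / 10 : ℝ) * x ^ (1 / 2 : ℝ) := by
      have h12 : (0 : ℝ) ≤ x ^ (1 / 2 : ℝ) := by positivity
      nlinarith
    calc (M : ℝ) * (K + 1 + t) ≤ x ^ (1 / 5 : ℝ) * (x ^ (1 / 10 : ℝ) * x ^ (1 / 2 : ℝ)) :=
          mul_le_mul h5 h11 (by positivity) (by positivity)
      _ = x ^ (4 / 5 : ℝ) := by
          rw [← Real.rpow_add hx0, ← Real.rpow_add hx0]
          norm_num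
      _ ≤ x ^ (1 : ℝ) := by
          apply Real.rpow_le_rpow_of_exponent_le _ (by norm_num)
          have := Real.add_one_le_exp (1000 : ℝ)
          linarith
      _ = x := Real.rpow_one x
  · intro h hh hprime
    have h5 : a' + M * t + h = (a' + h) + M * t := by ring
    rw [h5] at hprime
    by_cases hco : Nat.Coprime (a + h) M
    · refine ht2 (a' + h) ?_ hprime
      rw [hB, Finset.mem_image]
      exact ⟨h, Finset.mem_filter.mpr ⟨hh, hco⟩, rfl⟩
    · rw [← hcop h, Nat.Prime.not_coprime_iff_dvd] at hco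
      obtain ⟨p, hp, hp1, hp2⟩ := hco
      have h6 : p ∣ a' + h + M * t := Nat.dvd_add hp1 (hp2.mul_right t)
      have h7 : p = a' + h + M * t := (Nat.prime_dvd_prime_iff_eq hp hprime).mp h6
      have h8 : p ≤ y := (hp.dvd_primorial_iff).mp hp2
      have h9 : y < K := by
        have h10 : (y : ℝ) < K := by
          have h11 : L / 8 ≤ x ^ (1 / 40 : ℝ) := by
            rw [Real.rpow_def_of_pos hx0]
            have h12 := Real.quadratic_le_exp_of_nonneg (x := L * (1 / 40)) (by linarith)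
            nlinarith
          linarith
        exact_mod_cast h10
      omega

/-- **Large gaps between primes** from the suppression theorem. -/
theorem large_gaps (c0 : ℝ) (hc0 : 0 < c0) (hS : Suppression c0) :
    ∃ c : ℝ, 0 < c ∧ ∀ᶠ x : ℝ in atTop, ∃ n : ℕ, (Nat.nth Nat.Prime n : ℝ) ≤ x ∧
      c * gapFn x ≤ (Nat.nth Nat.Prime (n + 1) : ℝ) - Nat.nth Nat.Prime n := by
  obtain ⟨c, hc, h⟩ := exists_free c0 hc0 hS
  refine ⟨c / 128, by positivity, ?_⟩
  have ty : Tendsto (fun x : ℝ => ⌊Real.log x / 8⌋₊) atTop atTop :=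
    tendsto_nat_floor_atTop.comp (Real.tendsto_log_atTop.atTop_div_const (by norm_num))
  have e2 := ty.eventually (eventually_cond 80)
  have t4 : Tendsto (fun x : ℝ => Real.log (Real.log (Real.log (Real.log x)))) atTop atTop :=
    Real.tendsto_log_atTop.comp (Real.tendsto_log_atTop.comp
      (Real.tendsto_log_atTop.comp Real.tendsto_log_atTop))
  filter_upwards [h, e2, t4.eventually_ge_atTop 10, eventually_ge_atTop (Real.exp 1000)] with
    x h1 h2 h3 h4
  obtain ⟨N, hN2, hNx, hfree⟩ := h1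
  obtain ⟨n, hn1, hn2⟩ := exists_gap N _ hN2 hfree
  refine ⟨n, le_trans (by exact_mod_cast hn1) hNx, ?_⟩
  have hx0 : 0 < x := lt_of_lt_of_le (Real.exp_pos _) h4
  have hL : 1000 ≤ Real.log x := by
    rw [Real.le_log_iff_exp_le hx0]; exact h4
  obtain ⟨h21, h22, h23, h24⟩ := h2
  set y := ⌊Real.log x / 8⌋₊ with hy
  set L := Real.log x with hLdef
  set L2 := Real.log L with hL2
  set L3 := Real.log L2 with hL3
  set L4 := Real.log L3 with hL4
  set l := Real.log y with hl
  set l2 := Real.log l with hl2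
  set l3 := Real.log l2 with hl3
  have hyL : (y : ℝ) ≤ L / 8 := Nat.floor_le (by linarith)
  have hyL' : L / 16 ≤ y := by
    have : L / 8 < y + 1 := Nat.lt_floor_add_one _
    linarith
  have hy2 : (2 : ℝ) ≤ y := by exact_mod_cast h24
  have hy0 : (0 : ℝ) < y := by linarith
  have hl20 : 0 < l2 := by linarith
  have hl0 : 0 < l := by linarith
  have hll : l ≤ L2 := by
    apply Real.log_le_log hy0
    linarith
  have hl2L : l2 ≤ L3 := Real.log_le_log hl0 hll
  have hL30 : 0 < L3 := lt_of_lt_of_le hl20 hl2L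
  have hL20 : 0 < L2 := lt_of_lt_of_le hl0 hll
  have hL0 : 0 < L := by linarith
  -- lower bounds
  have hL3b : 20 ≤ L3 := by linarith
  have hL2b : 1600 ≤ L2 := by linarith
  have hlb : L2 / 2 ≤ l := by
    have h5 : Real.log (L / 16) ≤ l := Real.log_le_log (by positivity) hyL'
    rw [Real.log_div hL0.ne' (by norm_num)] at h5
    have h6 : Real.log 16 ≤ 4 := by
      have : Real.log 16 = 4 * Real.log 2 := by
        rw [show (16 : ℝ) = 2 ^ 4 by norm_num, Real.log_pow]; norm_num
      have h2' := Real.log_two_lt_d9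
      linarith
    rw [← hL2] at h5
    linarith
  have hl2b : L3 / 2 ≤ l2 := by
    have h5 : Real.log (L2 / 2) ≤ l2 := Real.log_le_log (by positivity) hlb
    rw [Real.log_div hL20.ne' (by norm_num), ← hL3] at h5
    have h2' := Real.log_two_lt_d9
    linarith
  have hl3b : L4 / 2 ≤ l3 := by
    have h5 : Real.log (L3 / 2) ≤ l3 := Real.log_le_log (by positivity) hl2b
    rw [Real.log_div hL30.ne' (by norm_num), ← hL4] at h5
    have h2' := Real.log_two_lt_d9
    linarith
  have hL40 : 0 < L4 := by linarith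
  have hR : rankinFn y = y * l ^ 2 * l3 / l2 ^ 2 := rfl
  have hG : gapFn x = L * L2 ^ 2 * L4 / L3 ^ 2 := rfl
  have h5 : gapFn x / 128 ≤ rankinFn y := by
    rw [hG, hR]
    have h6 : (L / 16) * (L2 / 2) ^ 2 * (L4 / 2) ≤ y * l ^ 2 * l3 := by
      apply mul_le_mul _ hl3b (by positivity) (by positivity)
      apply mul_le_mul hyL' _ (by positivity) (by positivity)
      exact pow_le_pow_left₀ (by positivity) hlb 2
    have h7 : l2 ^ 2 ≤ L3 ^ 2 := pow_le_pow_left₀ hl20.le hl2L 2
    calc L * L2 ^ 2 * L4 / L3 ^ 2 / 128 = (L / 16) * (L2 / 2) ^ 2 * (L4 / 2) / L3 ^ 2 := by ring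
      _ ≤ (y * l ^ 2 * l3) / L3 ^ 2 := div_le_div_of_nonneg_right h6 (by positivity)
      _ ≤ (y * l ^ 2 * l3) / l2 ^ 2 := by
          apply div_le_div_of_nonneg_left _ (by positivity) h7
          have : 0 < l3 := by linarith
          positivity
  have h6 : c * rankinFn y < ⌊c * rankinFn y⌋₊ + 1 := Nat.lt_floor_add_one _
  have h7 : (⌊c * rankinFn y⌋₊ : ℝ) + 1 ≤
      (Nat.nth Nat.Prime (n + 1) : ℝ) - Nat.nth Nat.Prime n := by
    have h8 : ⌊c * rankinFn y⌋₊ + 1 + Nat.nth Nat.Prime n ≤ Nat.nth Nat.Prime (n + 1) := by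
      omega
    have h9 : ((⌊c * rankinFn y⌋₊ + 1 + Nat.nth Nat.Prime n : ℕ) : ℝ) ≤
        Nat.nth Nat.Prime (n + 1) := by exact_mod_cast h8
    push_cast at h9
    linarith
  calc c / 128 * gapFn x = c * (gapFn x / 128) := by ring
    _ ≤ c * rankinFn y := mul_le_mul_of_nonneg_left h5 hc.le
    _ ≤ _ := h6.le.trans h7

end Pool.Agent.H7R
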