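import Pool.Agent.Lib.H7R.Smooth

/-!
# Numbers with a large prime factor, greedy choice of residues
-/

set_option autoImplicit false

namespace Pool.Agent.H7R

open Finset
open Pool.Agent.Lib.Sieve

/-- Sum of `1 / q` over the primes of one dyadic block. -/
theorem block_le (a : ℕ) (ha : 2 ≤ a) :
    ∑ q ∈ (Finset.Ioc a (2 * a)).filter Nat.Prime, (1 : ℝ) / q ≤ 3 / Real.log a := by
  have ha' : (2 : ℝ) ≤ a := by exact_mod_cast ha
  have ha0 : (0 : ℝ) < a := by linarith
  have hlog : 0 < Real.log a := Real.log_pos (by linarith)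
  have h1 : ∑ q ∈ (Finset.Ioc a (2 * a)).filter Nat.Prime, Real.log q ≤
      Real.log 4 * (2 * a) := by
    have h2 := Chebyshev.theta_le_log4_mul_x (x := ((2 * a : ℕ) : ℝ)) (by positivity)
    rw [Chebyshev.theta_eq_sum_primesLE_log] at h2
    push_cast at h2
    refine le_trans ?_ h2
    apply Finset.sum_le_sum_of_subset_of_nonneg
    · intro q hq
      rw [Finset.mem_filter, Finset.mem_Ioc] at hq
      rw [Nat.mem_primesLE]
      exact ⟨hq.1.2, hq.2⟩
    · intro q hq _
      exact Real.log_natCast_nonneg q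
  have h4 : Real.log 4 ≤ 3 / 2 := by
    have : Real.log 4 = 2 * Real.log 2 := by
      rw [show (4 : ℝ) = 2 ^ 2 by norm_num, Real.log_pow]; norm_num
    have h2' := Real.log_two_lt_d9
    linarith
  rw [le_div_iff₀ hlog, Finset.sum_mul]
  have h3 : ∀ q ∈ (Finset.Ioc a (2 * a)).filter Nat.Prime,
      (1 : ℝ) / q * Real.log a ≤ Real.log q * (1 / a) := by
    intro q hq
    rw [Finset.mem_filter, Finset.mem_Ioc] at hq
    have hq1 : (a : ℝ) ≤ q := by exact_mod_cast hq.1.1.le
    have hq0 : (0 : ℝ) < q := by linarith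
    have h5 : Real.log a ≤ Real.log q := Real.log_le_log ha0 hq1
    have h6 : (1 : ℝ) / q ≤ 1 / a := one_div_le_one_div_of_le ha0 hq1
    calc (1 : ℝ) / q * Real.log a ≤ (1 / a) * Real.log q :=
          mul_le_mul h6 h5 hlog.le (by positivity)
      _ = _ := by ring
  refine (Finset.sum_le_sum h3).trans ?_
  rw [← Finset.sum_mul]
  calc (∑ q ∈ (Finset.Ioc a (2 * a)).filter Nat.Prime, Real.log q) * (1 / a)
      ≤ (Real.log 4 * (2 * a)) * (1 / a) := mul_le_mul_of_nonneg_right h1 (by positivity)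
    _ = 2 * Real.log 4 := by field_simp
    _ ≤ 3 := by linarith

/-- Sum of `1 / q` over the primes in `(a, 2 ^ J a]`. -/
theorem blocks_le (a : ℕ) (ha : 2 ≤ a) (J : ℕ) :
    ∑ q ∈ (Finset.Ioc a (2 ^ J * a)).filter Nat.Prime, (1 : ℝ) / q ≤ 3 * J / Real.log a := by
  have ha' : (2 : ℝ) ≤ a := by exact_mod_cast ha
  have ha0 : (0 : ℝ) < a := by linarith
  have hlog : 0 < Real.log a := Real.log_pos (by linarith)
  induction J with
  | zero => simp
  | succ J ih =>
    have h2J : 1 ≤ 2 ^ J := Nat.one_le_two_pow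
    have hle : a ≤ 2 ^ J * a := Nat.le_mul_of_pos_left a (by positivity)
    have h1 := block_le (2 ^ J * a) (ha.trans hle)
    have h2 : (Finset.Ioc a (2 ^ (J + 1) * a)).filter Nat.Prime ⊆
        (Finset.Ioc a (2 ^ J * a)).filter Nat.Prime ∪
          (Finset.Ioc (2 ^ J * a) (2 * (2 ^ J * a))).filter Nat.Prime := by
      intro q hq
      rw [Finset.mem_union, Finset.mem_filter, Finset.mem_filter, Finset.mem_Ioc, Finset.mem_Ioc]
      rw [Finset.mem_filter, Finset.mem_Ioc] at hq
      have h3 : 2 ^ (J + 1) * a = 2 * (2 ^ J * a) := by ring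
      rw [h3] at hq
      rcases Nat.lt_or_ge (2 ^ J * a) q with h | h
      · exact Or.inr ⟨⟨h, hq.1.2⟩, hq.2⟩
      · exact Or.inl ⟨⟨hq.1.1, h⟩, hq.2⟩
    have h4 : ∑ q ∈ (Finset.Ioc a (2 ^ (J + 1) * a)).filter Nat.Prime, (1 : ℝ) / q ≤
        ∑ q ∈ (Finset.Ioc a (2 ^ J * a)).filter Nat.Prime, (1 : ℝ) / q +
        ∑ q ∈ (Finset.Ioc (2 ^ J * a) (2 * (2 ^ J * a))).filter Nat.Prime, (1 : ℝ) / q := by
      refine (Finset.sum_le_sum_of_subset_of_nonneg h2 fun q _ _ => by positivity).trans ?_
      have h5 := Finset.sum_union_inter (s₁ := (Finset.Ioc a (2 ^ J * a)).filter Nat.Prime)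
        (s₂ := (Finset.Ioc (2 ^ J * a) (2 * (2 ^ J * a))).filter Nat.Prime)
        (f := fun q : ℕ => (1 : ℝ) / q)
      have h6 : 0 ≤ ∑ q ∈ (Finset.Ioc a (2 ^ J * a)).filter Nat.Prime ∩
          (Finset.Ioc (2 ^ J * a) (2 * (2 ^ J * a))).filter Nat.Prime, (1 : ℝ) / q :=
        Finset.sum_nonneg fun q _ => by positivity
      linarith
    have h7 : 3 / Real.log ((2 ^ J * a : ℕ) : ℝ) ≤ 3 / Real.log a := by
      apply div_le_div_of_nonneg_left (by norm_num) hlog
      exact Real.log_le_log ha0 (by exact_mod_cast hle)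
    push_cast at h7 h1 ih ⊢
    calc _ ≤ _ := h4
      _ ≤ 3 * J / Real.log a + 3 / Real.log a := by linarith
      _ = 3 * (J + 1) / Real.log a := by ring

/-- The survivors of the sieve by the class `0` modulo all primes in `(z, y]`. -/
def surv (z y H : ℕ) : Finset ℕ :=
  (Finset.Icc 1 H).filter fun n => ∀ p ∈ primesUpTo y, z < p → ¬ p ∣ n

theorem surv_card_le (z y H J : ℕ) (hy : 2 ≤ y) (hH : H ≤ 2 ^ J * y) :
    ((surv z y H).card : ℝ) ≤
      (((Finset.Icc 1 H).filter (fun n => ∀ p ∈ n.primeFactors, p ≤ z)).card : ℝ) +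
        H * (3 * J / Real.log y) := by
  classical
  have h1 : surv z y H ⊆ (Finset.Icc 1 H).filter (fun n => ∀ p ∈ n.primeFactors, p ≤ z) ∪
      ((Finset.Ioc y (2 ^ J * y)).filter Nat.Prime).biUnion
        (fun q => (Finset.Icc 1 H).filter (fun n => q ∣ n)) := by
    intro n hn
    unfold surv at hn
    rw [Finset.mem_filter, Finset.mem_Icc] at hn
    rw [Finset.mem_union, Finset.mem_filter, Finset.mem_Icc, Finset.mem_biUnion]
    by_cases h : ∀ p ∈ n.primeFactors, p ≤ z
    · exact Or.inl ⟨hn.1, h⟩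
    · push Not at h
      obtain ⟨q, hq, hzq⟩ := h
      rw [Nat.mem_primeFactors] at hq
      have hqy : y < q := by
        by_contra hc
        exact hn.2 q (mem_primesUpTo.mpr ⟨hq.1, by omega⟩) hzq hq.2.1
      have hqn : q ≤ n := Nat.le_of_dvd (by omega) hq.2.1
      refine Or.inr ⟨q, ?_, ?_⟩
      · rw [Finset.mem_filter, Finset.mem_Ioc]
        exact ⟨⟨hqy, by omega⟩, hq.1⟩
      · rw [Finset.mem_filter, Finset.mem_Icc]
        exact ⟨hn.1, hq.2.1⟩
  have h2 : ∀ q ∈ (Finset.Ioc y (2 ^ J * y)).filter Nat.Prime,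
      ((((Finset.Icc 1 H).filter (fun n => q ∣ n)).card : ℕ) : ℝ) ≤ H * (1 / q) := by
    intro q hq
    rw [Finset.mem_filter] at hq
    have h3 : ((Finset.Icc 1 H).filter (fun n => q ∣ n)).card = H / q := by
      have := Nat.Ioc_filter_dvd_card_eq_div H q
      rw [← this]
      congr 1
    rw [h3, mul_one_div]
    exact Nat.cast_div_le
  calc ((surv z y H).card : ℝ) ≤ (((Finset.Icc 1 H).filter (fun n => ∀ p ∈ n.primeFactors, p ≤ z) ∪
      ((Finset.Ioc y (2 ^ J * y)).filter Nat.Prime).biUnion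
        (fun q => (Finset.Icc 1 H).filter (fun n => q ∣ n))).card : ℝ) := by
        exact_mod_cast Finset.card_le_card h1
    _ ≤ (((Finset.Icc 1 H).filter (fun n => ∀ p ∈ n.primeFactors, p ≤ z)).card : ℝ) +
        ((((Finset.Ioc y (2 ^ J * y)).filter Nat.Prime).biUnion
          (fun q => (Finset.Icc 1 H).filter (fun n => q ∣ n))).card : ℝ) := by
        exact_mod_cast Finset.card_union_le _ _
    _ ≤ (((Finset.Icc 1 H).filter (fun n => ∀ p ∈ n.primeFactors, p ≤ z)).card : ℝ) +
        ∑ q ∈ (Finset.Ioc y (2 ^ J * y)).filter Nat.Prime,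
          (((Finset.Icc 1 H).filter (fun n => q ∣ n)).card : ℝ) := by
        gcongr
        exact_mod_cast Finset.card_biUnion_le
    _ ≤ (((Finset.Icc 1 H).filter (fun n => ∀ p ∈ n.primeFactors, p ≤ z)).card : ℝ) +
        ∑ q ∈ (Finset.Ioc y (2 ^ J * y)).filter Nat.Prime, (H : ℝ) * (1 / q) := by
        gcongr with q hq
        exact h2 q hq
    _ ≤ _ := by
        rw [← Finset.mul_sum]
        gcongr
        exact blocks_le y hy J

/-- Greedy choice of one residue class for every prime of a finite set. -/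
theorem greedy (S : Finset ℕ) (P : Finset ℕ) (hP : ∀ p ∈ P, p.Prime) :
    ∃ r : ℕ → ℕ, ((S.filter fun n => ∀ p ∈ P, ¬ n ≡ r p [MOD p]).card : ℝ) ≤
      S.card * ∏ p ∈ P, (1 - 1 / (p : ℝ)) := by
  classical
  induction P using Finset.induction_on with
  | empty => exact ⟨fun _ => 0, by simp⟩
  | insert p P hp ih =>
    obtain ⟨r, hr⟩ := ih fun q hq => hP q (Finset.mem_insert_of_mem hq)
    have hpp : p.Prime := hP p (Finset.mem_insert_self _ _)
    have hp1 : (1 : ℝ) < p := by exact_mod_cast hpp.one_lt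
    set T := S.filter fun n => ∀ q ∈ P, ¬ n ≡ r q [MOD q] with hT
    -- a class with at least `T.card / p` elements
    have h1 : ∃ c ∈ Finset.range p, (T.card : ℝ) ≤
        p * ((T.filter fun n => n % p = c).card : ℝ) := by
      by_contra hc
      push Not at hc
      have h2 : T.card = ∑ c ∈ Finset.range p, (T.filter fun n => n % p = c).card :=
        Finset.card_eq_sum_card_fiberwise fun n _ => by
          simpa using Nat.mod_lt n hpp.pos
      have h3 : (p : ℝ) * T.card < ∑ c ∈ Finset.range p, (T.card : ℝ) := by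
        have h4 : (p : ℝ) * T.card =
            ∑ c ∈ Finset.range p, p * ((T.filter fun n => n % p = c).card : ℝ) := by
          rw [← Finset.mul_sum]
          congr 1
          exact_mod_cast h2
        rw [h4]
        exact Finset.sum_lt_sum_of_nonempty ⟨0, by simpa using hpp.pos⟩ hc
      rw [Finset.sum_const, Finset.card_range, nsmul_eq_mul] at h3
      exact lt_irrefl _ h3
    obtain ⟨c, hcr, hc⟩ := h1
    refine ⟨Function.update r p c, ?_⟩
    have h5 : (S.filter fun n => ∀ q ∈ insert p P, ¬ n ≡ Function.update r p c q [MOD q]) ⊆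
        T.filter fun n => ¬ n % p = c := by
      intro n hn
      rw [Finset.mem_filter] at hn
      rw [hT, Finset.mem_filter, Finset.mem_filter]
      refine ⟨⟨hn.1, fun q hq => ?_⟩, ?_⟩
      · have h6 := hn.2 q (Finset.mem_insert_of_mem hq)
        have h7 : q ≠ p := fun h => hp (h ▸ hq)
        rwa [Function.update_of_ne h7] at h6
      · have h6 := hn.2 p (Finset.mem_insert_self _ _)
        rw [Function.update_self] at h6
        intro h7
        apply h6
        unfold Nat.ModEq
        rw [h7, Nat.mod_eq_of_lt (Finset.mem_range.mp hcr)]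
    have h8 : ((T.filter fun n => ¬ n % p = c).card : ℝ) =
        T.card - (T.filter fun n => n % p = c).card := by
      have := Finset.card_filter_add_card_filter_not (s := T) (fun n => n % p = c)
      have h9 : ((T.filter fun n => n % p = c).card : ℝ) +
          (T.filter fun n => ¬ n % p = c).card = T.card := by exact_mod_cast this
      linarith
    have hp0 : (0 : ℝ) < p := by linarith
    have h10 : (T.card : ℝ) / p ≤ (T.filter fun n => n % p = c).card := by
      rw [div_le_iff₀ hp0]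
      linarith
    calc ((S.filter fun n => ∀ q ∈ insert p P, ¬ n ≡ Function.update r p c q [MOD q]).card : ℝ)
        ≤ (T.filter fun n => ¬ n % p = c).card := by exact_mod_cast Finset.card_le_card h5
      _ ≤ T.card - T.card / p := by rw [h8]; linarith
      _ = T.card * (1 - 1 / (p : ℝ)) := by ring
      _ ≤ (S.card * ∏ p ∈ P, (1 - 1 / (p : ℝ))) * (1 - 1 / (p : ℝ)) := by
          apply mul_le_mul_of_nonneg_right hr
          have : (1 : ℝ) / p ≤ 1 := by rw [div_le_one hp0]; linarith
          linarith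
      _ = _ := by rw [Finset.prod_insert hp]; ring

end Pool.Agent.H7R
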