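import Pool.Agent.Lib.H7R.Assembly
import Pool.Agent.Lib.H56G.Suppress

/-!
# Long runs of composite numbers in every interval of length `x`

The result uses the suppression theorem `H56G.suppress` and the Erdos-Rankin choice of residues.
-/

set_option autoImplicit false

namespace Pool.Agent.H7R

open Finset Filter
open Pool.Agent.Lib.Sieve
open Pool.Agent.Lib.H56G (WW suppress)

/-- A long run of composite numbers in `[Y, Y + x]`, `Y ≥ x`. -/
theorem exists_run :
    ∃ c : ℝ, 0 < c ∧ ∀ᶠ x : ℝ in atTop, ∀ Y : ℝ, x ≤ Y → ∃ N : ℕ, 2 ≤ N ∧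
      Y ≤ N ∧ (N : ℝ) + ⌊c * rankinFn (⌊Real.log x / 8⌋₊ : ℕ)⌋₊ + 1 ≤ Y + x ∧
      ∀ h ∈ Finset.Icc 1 ⌊c * rankinFn (⌊Real.log x / 8⌋₊ : ℕ)⌋₊, ¬ (N + h).Prime := by
  obtain ⟨c0, hc0, x0, hS⟩ := suppress
  set c : ℝ := min 1 (c0 / 26) with hc
  have hcpos : 0 < c := lt_min one_pos (by positivity)
  have hc1 : c ≤ 1 := min_le_left _ _
  have hc2 : 26 * c ≤ c0 := by
    have : c ≤ c0 / 26 := min_le_right _ _
    linarith
  refine ⟨c, hcpos, ?_⟩
  have ty : Tendsto (fun x : ℝ => ⌊Real.log x / 8⌋₊) atTop atTop :=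
    tendsto_nat_floor_atTop.comp (Real.tendsto_log_atTop.atTop_div_const (by norm_num))
  have e0 : ∀ᶠ x : ℝ in atTop, Real.log x ^ 4 ≤ x ^ (1 / 10 : ℝ) := by
    have h1 := (isLittleO_log_rpow_rpow_atTop (4 : ℝ) (show (0 : ℝ) < 1 / 10 by norm_num)).bound
      (c := 1) one_pos
    filter_upwards [h1, eventually_ge_atTop (1 : ℝ)] with x hx h1x
    have h2 : 0 ≤ Real.log x := Real.log_nonneg h1x
    rw [one_mul, Real.norm_eq_abs, Real.norm_eq_abs, abs_of_nonneg (by positivity),
      abs_of_nonneg (by positivity)] at hx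
    rwa [← Real.rpow_natCast]
  have e1 := ty.eventually (exists_residue c hcpos hc1)
  have e2 := ty.eventually (eventually_cond 80)
  filter_upwards [e0, e1, e2, eventually_ge_atTop x0, eventually_ge_atTop (Real.exp 1000)]
    with x h0 h1 h2 hx0' h4 Y hY
  have h3 := hS x hx0'
  set y := ⌊Real.log x / 8⌋₊ with hy
  set H := ⌊c * rankinFn y⌋₊ with hH
  obtain ⟨a, ha⟩ := h1
  obtain ⟨h21, h22, h23, h24⟩ := h2
  have hx0 : 0 < x := lt_of_lt_of_le (Real.exp_pos _) h4
  have hL : 1000 ≤ Real.log x := by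
    rw [Real.le_log_iff_exp_le hx0]; exact h4
  have hx1 : 1000 ≤ x := by
    have := Real.add_one_le_exp (1000 : ℝ)
    linarith
  have hWW : Real.log x ^ 4 ≤ WW x := Nat.le_ceil _
  set L := Real.log x with hLdef
  have hyL : (y : ℝ) ≤ L / 8 := Nat.floor_le (by positivity)
  have hy2 : (2 : ℝ) ≤ y := by exact_mod_cast h24
  -- bound for H
  set l := Real.log y with hl
  set l2 := Real.log l with hl2
  set l3 := Real.log l2 with hl3
  have hl20 : 0 < l2 := by linarith
  have hl0 : 0 < l := by linarith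
  have h32 : l3 ≤ l2 := by
    have := Real.log_le_sub_one_of_pos hl20
    rw [← hl3] at this
    linarith
  have hR : rankinFn y = y * l ^ 2 * l3 / l2 ^ 2 := rfl
  have hR0 : 0 ≤ c * rankinFn y := by
    rw [hR]; positivity
  have hly : l ≤ y := by
    have := Real.log_le_sub_one_of_pos (show (0 : ℝ) < y by linarith)
    rw [← hl] at this
    linarith
  have hH1 : (H : ℝ) ≤ y * l ^ 2 := by
    refine (Nat.floor_le hR0).trans ?_
    rw [hR]
    have h5 : l3 / l2 ^ 2 ≤ 1 := by
      rw [div_le_one (by positivity)]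
      nlinarith
    have h6 : (0 : ℝ) ≤ y * l ^ 2 := by positivity
    calc c * (y * l ^ 2 * l3 / l2 ^ 2) = c * ((y * l ^ 2) * (l3 / l2 ^ 2)) := by ring
      _ ≤ 1 * ((y * l ^ 2) * 1) := by
          apply mul_le_mul hc1 _ (by positivity) (by norm_num)
          exact mul_le_mul_of_nonneg_left h5 h6
      _ = _ := by ring
  have hH2 : (H : ℝ) ≤ L ^ 4 := by
    refine hH1.trans ?_
    have h5 : (y : ℝ) ≤ L := by linarith
    have h6 : l ≤ L := by linarith
    calc (y : ℝ) * l ^ 2 ≤ L * L ^ 2 := by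
          apply mul_le_mul h5 _ (by positivity) (by linarith)
          exact pow_le_pow_left₀ hl0.le h6 2
      _ = L ^ 3 := by ring
      _ ≤ L ^ 4 := pow_le_pow_right₀ (by linarith) (by norm_num)
  have hyL4 : (y : ℝ) ≤ L ^ 4 := by
    have h5 : (y : ℝ) ≤ L := by linarith
    exact h5.trans (le_self_pow₀ (by linarith) (by norm_num))
  -- the modulus
  set M := primorial y with hM
  have hM0 : 0 < M := primorial_pos y
  have hM1 : (1 : ℝ) ≤ M := by exact_mod_cast hM0
  set a' := a % M with ha'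
  have ha'M : a' < M := Nat.mod_lt a hM0
  set t0 := ⌈Y / M⌉₊ with ht0
  have hY0 : 0 ≤ Y := by linarith
  have hYt0 : Y ≤ M * t0 := by
    have h5 : Y / M ≤ t0 := Nat.le_ceil _
    rw [div_le_iff₀ (by linarith)] at h5
    linarith
  have hcop : ∀ h, Nat.Coprime (a' + M * t0 + h) M ↔ Nat.Coprime (a + h) M := by
    intro h
    have h5 : a' + M * t0 + h = (a % M + h) + M * t0 := by rw [ha']; ring
    have h6 : a + h = (a % M + h) + M * (a / M) := by
      have := Nat.mod_add_div a M
      omega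
    rw [h5, h6, Nat.coprime_add_mul_left_left, Nat.coprime_add_mul_left_left]
  classical
  set B := ((Finset.Icc 1 H).filter fun h => Nat.Coprime (a + h) M).image
    (fun h => a' + M * t0 + h) with hB
  obtain ⟨t, ht1, ht3⟩ := h3 M B
    (by
      intro p hp hpL hd
      have h5 := (hp.dvd_primorial_iff).mp hd
      have h6 : (p : ℝ) ≤ y := by exact_mod_cast h5
      have h7 : ((WW x : ℕ) : ℝ) < p := by exact_mod_cast hpL
      linarith)
    (by
      have h5 : (B.card : ℝ) ≤ 208 * c * y := by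
        refine le_trans ?_ ha
        exact_mod_cast Finset.card_image_le
      have h6 : 208 * c * y ≤ 208 * c * (L / 8) :=
        mul_le_mul_of_nonneg_left hyL (by positivity)
      have h7 : 208 * c * (L / 8) = (26 * c) * L := by ring
      have h8 : (26 * c) * L ≤ c0 * L := mul_le_mul_of_nonneg_right hc2 (by linarith)
      linarith)
    (by
      intro b hb
      rw [hB, Finset.mem_image] at hb
      obtain ⟨u, hu, rfl⟩ := hb
      have h5 : x ^ (1 / 40 : ℝ) < x := by
        conv_rhs => rw [← Real.rpow_one x]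
        exact Real.rpow_lt_rpow_of_exponent_lt (by linarith) (by norm_num)
      push_cast
      have h6 : (0 : ℝ) ≤ a' := by positivity
      have h7 : (0 : ℝ) ≤ u := by positivity
      linarith)
    (by
      intro b hb b' hb'
      rw [hB, Finset.mem_image] at hb hb'
      obtain ⟨u, hu, rfl⟩ := hb
      obtain ⟨u', hu', rfl⟩ := hb'
      rw [Finset.mem_filter, Finset.mem_Icc] at hu hu'
      have h5 : H ≤ WW x := by
        have : (H : ℝ) ≤ WW x := hH2.trans hWW
        exact_mod_cast this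
      omega)
  rw [Finset.mem_Icc] at ht1
  have htx : (t : ℝ) ≤ x ^ (1 / 2 : ℝ) :=
    (Nat.cast_le.mpr ht1.2).trans (Nat.floor_le (by positivity))
  have hYN : Y ≤ ((a' + M * t0 + M * t : ℕ) : ℝ) := by
    push_cast
    have h5 : (0 : ℝ) ≤ a' := by positivity
    have h6 : (0 : ℝ) ≤ M * t := by positivity
    linarith
  refine ⟨a' + M * t0 + M * t, ?_, hYN, ?_, ?_⟩
  · have : (2 : ℝ) ≤ ((a' + M * t0 + M * t : ℕ) : ℝ) := by linarith
    exact_mod_cast this
  · -- the size
    have h5 : (M : ℝ) ≤ x ^ (1 / 5 : ℝ) := by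
      have h6 : (M : ℝ) ≤ (4 : ℝ) ^ y := by exact_mod_cast primorial_le_four_pow y
      refine h6.trans ?_
      rw [Real.rpow_def_of_pos hx0, ← Real.rpow_natCast, Real.rpow_def_of_pos (by norm_num)]
      apply Real.exp_le_exp.mpr
      have h7 : Real.log 4 ≤ 3 / 2 := by
        have : Real.log 4 = 2 * Real.log 2 := by
          rw [show (4 : ℝ) = 2 ^ 2 by norm_num, Real.log_pow]; norm_num
        have h2' := Real.log_two_lt_d9
        linarith
      have h8 : (0 : ℝ) ≤ y := by positivity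
      calc Real.log 4 * y ≤ (3 / 2) * (L / 8) := mul_le_mul h7 hyL h8 (by norm_num)
        _ ≤ L * (1 / 5) := by linarith
    have h6 : (10 : ℝ) ≤ x ^ (1 / 10 : ℝ) := by
      rw [Real.rpow_def_of_pos hx0]
      have := Real.add_one_le_exp (L * (1 / 10))
      linarith
    have e5 : x ^ (1 / 5 : ℝ) = x ^ (1 / 10 : ℝ) * x ^ (1 / 10 : ℝ) := by
      rw [← Real.rpow_add hx0]; norm_num
    have e2 : x ^ (1 / 2 : ℝ) = (x ^ (1 / 10 : ℝ)) ^ 5 := by
      rw [← Real.rpow_natCast, ← Real.rpow_mul hx0.le]; norm_num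
    have e10 : x = (x ^ (1 / 10 : ℝ)) ^ 10 := by
      rw [← Real.rpow_natCast, ← Real.rpow_mul hx0.le]; norm_num
    have hH3 : (H : ℝ) ≤ x ^ (1 / 10 : ℝ) := hH2.trans h0
    rw [e5] at h5
    rw [e2] at htx
    have hx10 : Y + x = Y + (x ^ (1 / 10 : ℝ)) ^ 10 := by rw [← e10]
    rw [hx10]
    set u := x ^ (1 / 10 : ℝ) with hu
    have hu1 : (1 : ℝ) ≤ u := by linarith
    have h8 : (M : ℝ) * t0 ≤ Y + M := by
      have h9 : (t0 : ℝ) < Y / M + 1 := Nat.ceil_lt_add_one (by positivity)
      have h10 := mul_le_mul_of_nonneg_left h9.le (show (0 : ℝ) ≤ M by linarith)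
      have h11 : (M : ℝ) * (Y / M + 1) = Y + M := by field_simp
      linarith
    have h9 : (a' : ℝ) ≤ M := by exact_mod_cast ha'M.le
    push_cast
    have h11 : (M : ℝ) * t ≤ (u * u) * u ^ 5 :=
      mul_le_mul h5 htx (by positivity) (by positivity)
    have h12 : 2 * (u * u) + (u * u) * u ^ 5 + u + 1 ≤ u ^ 10 := by
      have h14 : u ^ 2 ≤ u ^ 7 := pow_le_pow_right₀ hu1 (by norm_num)
      have h15 : u + 1 ≤ u ^ 7 := by nlinarith
      have h16 : 10 * u ^ 7 ≤ u ^ 10 := by
        have h17 : u ^ 8 ≤ u ^ 10 := pow_le_pow_right₀ hu1 (by norm_num)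
        have h18 : 10 * u ^ 7 ≤ u ^ 8 := by
          have : u ^ 8 = u * u ^ 7 := by ring
          rw [this]
          exact mul_le_mul_of_nonneg_right h6 (by positivity)
        linarith
      have h19 : (u * u) * u ^ 5 = u ^ 7 := by ring
      have h20 : 0 ≤ u ^ 7 := by positivity
      nlinarith
    linarith
  · intro h hh hprime
    have h5 : a' + M * t0 + M * t + h = (a' + M * t0 + h) + M * t := by ring
    have hbig : x ≤ ((a' + M * t0 + M * t + h : ℕ) : ℝ) := by
      push_cast
      push_cast at hYN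
      have : (0 : ℝ) ≤ h := by positivity
      linarith
    rw [h5] at hprime hbig
    by_cases hco : Nat.Coprime (a + h) M
    · refine ht3 (a' + M * t0 + h) ?_ hprime
      rw [hB, Finset.mem_image]
      exact ⟨h, Finset.mem_filter.mpr ⟨hh, hco⟩, rfl⟩
    · rw [← hcop h, Nat.Prime.not_coprime_iff_dvd] at hco
      obtain ⟨p, hp, hp1, hp2⟩ := hco
      have h6 : p ∣ a' + M * t0 + h + M * t := Nat.dvd_add hp1 (hp2.mul_right t)
      have h7 : p = a' + M * t0 + h + M * t := (Nat.prime_dvd_prime_iff_eq hp hprime).mp h6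
      have h8 : p ≤ y := (hp.dvd_primorial_iff).mp hp2
      have h9 : (p : ℝ) ≤ y := by exact_mod_cast h8
      rw [h7] at h9
      have h10 : L ≤ x := by
        have := Real.log_le_sub_one_of_pos hx0
        linarith
      linarith

/-- **Long runs of composite numbers.** There is `c > 0` such that for all large `x` and ALL
`Y ≥ 0` there are consecutive primes such that the part of the gap between them which lies in
`[Y, Y + x]` has length at least `c log x (log₂ x)² log₄ x / (log₃ x)²`. -/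
theorem long_runs : ∃ c : ℝ, 0 < c ∧ ∃ x0 : ℝ, ∀ x : ℝ, x0 ≤ x → ∀ Y : ℝ, 0 ≤ Y →
    ∃ n : ℕ, c * gapFn x ≤
      min (Nat.nth Nat.Prime (n + 1) : ℝ) (Y + x) - max (Nat.nth Nat.Prime n : ℝ) Y := by
  obtain ⟨c, hc, h⟩ := exists_run
  refine ⟨c / 128, by positivity, ?_⟩
  have ty : Tendsto (fun x : ℝ => ⌊Real.log (x / 2) / 8⌋₊) atTop atTop :=
    tendsto_nat_floor_atTop.comp ((Real.tendsto_log_atTop.comp
      (tendsto_id.atTop_div_const (by norm_num))).atTop_div_const (by norm_num))
  have e2 := ty.eventually (eventually_cond 80)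
  have t4 : Tendsto (fun x : ℝ => Real.log (Real.log (Real.log (Real.log x)))) atTop atTop :=
    Real.tendsto_log_atTop.comp (Real.tendsto_log_atTop.comp
      (Real.tendsto_log_atTop.comp Real.tendsto_log_atTop))
  have t5 : Tendsto (fun x : ℝ => x / 2) atTop atTop := tendsto_id.atTop_div_const (by norm_num)
  have main : ∀ᶠ x : ℝ in atTop, ∀ Y : ℝ, 0 ≤ Y → ∃ n : ℕ, c / 128 * gapFn x ≤
      min (Nat.nth Nat.Prime (n + 1) : ℝ) (Y + x) - max (Nat.nth Nat.Prime n : ℝ) Y := by
    filter_upwards [t5.eventually h, e2, t4.eventually_ge_atTop 10,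
      eventually_ge_atTop (Real.exp 1000)] with x h1 h2 h3 h4 Y hY
    obtain ⟨N, hN2, hYN, hNY, hfree⟩ := h1 (max Y (x / 2)) (le_max_right _ _)
    obtain ⟨n, hn1, hn2⟩ := exists_gap N _ hN2 hfree
    refine ⟨n, ?_⟩
    have hx0 : 0 < x := lt_of_lt_of_le (Real.exp_pos _) h4
    have hL : 1000 ≤ Real.log x := by
      rw [Real.le_log_iff_exp_le hx0]; exact h4
    obtain ⟨h21, h22, h23, h24⟩ := h2
    have hlog2 : Real.log (x / 2) = Real.log x - Real.log 2 :=
      Real.log_div hx0.ne' (by norm_num)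
    have h2' := Real.log_two_lt_d9
    have h2'' : 0 < Real.log 2 := Real.log_pos (by norm_num)
    set y := ⌊Real.log (x / 2) / 8⌋₊ with hy
    set H := ⌊c * rankinFn y⌋₊ with hH
    set L := Real.log x with hLdef
    set L2 := Real.log L with hL2
    set L3 := Real.log L2 with hL3
    set L4 := Real.log L3 with hL4
    set l := Real.log y with hl
    set l2 := Real.log l with hl2
    set l3 := Real.log l2 with hl3
    have hyL : (y : ℝ) ≤ (L - Real.log 2) / 8 := by
      rw [← hlog2]
      exact Nat.floor_le (by rw [hlog2]; linarith)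
    have hyL' : L / 16 ≤ y := by
      have : Real.log (x / 2) / 8 < y + 1 := Nat.lt_floor_add_one _
      rw [hlog2] at this
      linarith
    have hy2 : (2 : ℝ) ≤ y := by exact_mod_cast h24
    have hy0 : (0 : ℝ) < y := by linarith
    have hl20 : 0 < l2 := by linarith
    have hl0 : 0 < l := by linarith
    have hll : l ≤ L2 := by
      apply Real.log_le_log hy0
      linarith
    have hl2L : l2 ≤ L3 := Real.log_le_log hl0 hll
    have hL30 : 0 < L3 := lt_of_lt_of_le hl20 hl2L
    have hL20 : 0 < L2 := lt_of_lt_of_le hl0 hll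
    have hL0 : 0 < L := by linarith
    have hL3b : 20 ≤ L3 := by linarith
    have hL2b : 1600 ≤ L2 := by linarith
    have hlb : L2 / 2 ≤ l := by
      have h5 : Real.log (L / 16) ≤ l := Real.log_le_log (by positivity) hyL'
      rw [Real.log_div hL0.ne' (by norm_num)] at h5
      have h6 : Real.log 16 ≤ 4 := by
        have : Real.log 16 = 4 * Real.log 2 := by
          rw [show (16 : ℝ) = 2 ^ 4 by norm_num, Real.log_pow]; norm_num
        linarith
      rw [← hL2] at h5
      linarith
    have hl2b : L3 / 2 ≤ l2 := by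
      have h5 : Real.log (L2 / 2) ≤ l2 := Real.log_le_log (by positivity) hlb
      rw [Real.log_div hL20.ne' (by norm_num), ← hL3] at h5
      linarith
    have hl3b : L4 / 2 ≤ l3 := by
      have h5 : Real.log (L3 / 2) ≤ l3 := Real.log_le_log (by positivity) hl2b
      rw [Real.log_div hL30.ne' (by norm_num), ← hL4] at h5
      linarith
    have hL40 : 0 < L4 := by linarith
    have hR : rankinFn y = y * l ^ 2 * l3 / l2 ^ 2 := rfl
    have hG : gapFn x = L * L2 ^ 2 * L4 / L3 ^ 2 := rfl
    have h5 : gapFn x / 128 ≤ rankinFn y := by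
      rw [hG, hR]
      have h6 : (L / 16) * (L2 / 2) ^ 2 * (L4 / 2) ≤ y * l ^ 2 * l3 := by
        apply mul_le_mul _ hl3b (by positivity) (by positivity)
        apply mul_le_mul hyL' _ (by positivity) (by positivity)
        exact pow_le_pow_left₀ (by positivity) hlb 2
      have h7 : l2 ^ 2 ≤ L3 ^ 2 := pow_le_pow_left₀ hl20.le hl2L 2
      calc L * L2 ^ 2 * L4 / L3 ^ 2 / 128 = (L / 16) * (L2 / 2) ^ 2 * (L4 / 2) / L3 ^ 2 := by ring
        _ ≤ (y * l ^ 2 * l3) / L3 ^ 2 := div_le_div_of_nonneg_right h6 (by positivity)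
        _ ≤ (y * l ^ 2 * l3) / l2 ^ 2 := by
            apply div_le_div_of_nonneg_left _ (by positivity) h7
            have : 0 < l3 := by linarith
            positivity
    have h6 : c * rankinFn y < H + 1 := Nat.lt_floor_add_one _
    have h7 : (N : ℝ) + H + 1 ≤ Nat.nth Nat.Prime (n + 1) := by exact_mod_cast hn2
    have h8 : (Nat.nth Nat.Prime n : ℝ) ≤ N := by exact_mod_cast hn1
    have h9 : max (Nat.nth Nat.Prime n : ℝ) Y ≤ N := max_le h8 ((le_max_left _ _).trans hYN)
    have h10 : max Y (x / 2) + x / 2 ≤ Y + x := by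
      have : max Y (x / 2) ≤ Y + x / 2 := max_le (by linarith) (by linarith)
      linarith
    have h11 : (N : ℝ) + H + 1 ≤ min (Nat.nth Nat.Prime (n + 1) : ℝ) (Y + x) :=
      le_min h7 (hNY.trans h10)
    calc c / 128 * gapFn x = c * (gapFn x / 128) := by ring
      _ ≤ c * rankinFn y := mul_le_mul_of_nonneg_left h5 hc.le
      _ ≤ H + 1 := h6.le
      _ ≤ _ := by linarith
  exact eventually_atTop.mp main

end Pool.Agent.H7R
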