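import Pool.Agent.Lib.H7R.Assembly

/-!
# From the suppression theorem to large gaps between primes in short intervals
-/

set_option autoImplicit false

namespace Pool.Agent.H7R

open Finset Filter
open Pool.Agent.Lib.Sieve

/-- The suppression theorem: for every `ε > 0` there is `c0 > 0` such that for large `X`, every
system of at most `c0 log X` linear forms `b + M t` without coincidences modulo the primes in
`((log X)⁴, X ^ ε]`, and every interval of at least `X ^ ε` integers, there is `t` in the interval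
such that every `b + M t` has a prime factor which is at most `X ^ ε`. -/
def SuppressionLoc (ε c0 : ℝ) : Prop := ∀ᶠ X : ℝ in atTop, ∀ (M : ℕ) (B : Finset ℕ),
  (∀ p : ℕ, p.Prime → Real.log X ^ 4 < p → ¬ p ∣ M) →
  (∀ b ∈ B, ∀ b' ∈ B, b < b' → ∀ p : ℕ, p.Prime → Real.log X ^ 4 < p → ¬ p ∣ b' - b) →
  (B.card : ℝ) ≤ c0 * Real.log X →
  ∀ t0 N : ℕ, X ^ ε ≤ N → ∃ t, t0 ≤ t ∧ t < t0 + N ∧ ∀ b ∈ B, ∃ p : ℕ, p.Prime ∧
    (p : ℝ) ≤ X ^ ε ∧ p ∣ b + M * t

/-- For every `ε > 0` there is `c > 0` such that for large `X` and all `Y` in `[X, 2 X]` there are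
consecutive primes such that the part of the gap between them inside `[Y, Y + X ^ ε]` has length at
least `c log X (log₂ X)² log₄ X / (log₃ X)²`. -/
def LocalGaps : Prop := ∀ ε : ℝ, 0 < ε → ∃ c : ℝ, 0 < c ∧ ∀ᶠ X : ℝ in atTop, ∀ Y : ℝ, X ≤ Y →
  Y ≤ 2 * X → ∃ n : ℕ, c * gapFn X ≤
    min (Nat.nth Nat.Prime (n + 1) : ℝ) (Y + X ^ ε) - max (Nat.nth Nat.Prime n : ℝ) Y

/-- A prime free interval from the suppression theorem. -/
theorem exists_free_loc (ε c0 : ℝ) (hε : 0 < ε) (hε1 : ε ≤ 1) (hc0 : 0 < c0)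
    (hS : SuppressionLoc (ε / 2) c0) :
    ∃ c : ℝ, 0 < c ∧ ∀ᶠ X : ℝ in atTop, ∀ Y : ℝ, X ≤ Y → ∃ N : ℕ, 2 ≤ N ∧
      Y ≤ N ∧ (N : ℝ) + ⌊c * rankinFn (⌊ε / 8 * Real.log X⌋₊ : ℕ)⌋₊ + 1 ≤ Y + X ^ ε ∧
      ∀ h ∈ Finset.Icc 1 ⌊c * rankinFn (⌊ε / 8 * Real.log X⌋₊ : ℕ)⌋₊, ¬ (N + h).Prime := by
  set c : ℝ := min 1 (c0 / 26) with hc
  have hcpos : 0 < c := lt_min one_pos (by positivity)
  have hc1 : c ≤ 1 := min_le_left _ _
  have hc2 : 26 * c ≤ c0 := by
    have : c ≤ c0 / 26 := min_le_right _ _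
    linarith
  refine ⟨c, hcpos, ?_⟩
  have ty : Tendsto (fun x : ℝ => ⌊ε / 8 * Real.log x⌋₊) atTop atTop :=
    tendsto_nat_floor_atTop.comp (Real.tendsto_log_atTop.const_mul_atTop (by positivity))
  have tl : Tendsto (fun x : ℝ => ε * Real.log x) atTop atTop :=
    Real.tendsto_log_atTop.const_mul_atTop (by positivity)
  -- `L ^ 4` is small against `X ^ (ε / 10)`
  have e0 : ∀ᶠ x : ℝ in atTop, Real.log x ^ 4 ≤ x ^ (ε / 10) := by
    have h1 := (isLittleO_log_rpow_rpow_atTop (4 : ℝ) (show 0 < ε / 10 by positivity)).bound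
      (c := 1) one_pos
    filter_upwards [h1, eventually_ge_atTop (1 : ℝ)] with x hx h1x
    have h2 : 0 ≤ Real.log x := Real.log_nonneg h1x
    rw [one_mul, Real.norm_eq_abs, Real.norm_eq_abs, abs_of_nonneg (by positivity),
      abs_of_nonneg (by positivity)] at hx
    rwa [← Real.rpow_natCast]
  have e1 := ty.eventually (exists_residue c hcpos hc1)
  have e2 := ty.eventually (eventually_cond 80)
  filter_upwards [e0, e1, e2, hS, tl.eventually_ge_atTop 1000, eventually_ge_atTop (Real.exp 1000)]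
    with x h0 h1 h2 h3 hεL h4 Y hY
  set y := ⌊ε / 8 * Real.log x⌋₊ with hy
  set H := ⌊c * rankinFn y⌋₊ with hH
  obtain ⟨a, ha⟩ := h1
  obtain ⟨h21, h22, h23, h24⟩ := h2
  have hx0 : 0 < x := lt_of_lt_of_le (Real.exp_pos _) h4
  have hL : 1000 ≤ Real.log x := by
    rw [Real.le_log_iff_exp_le hx0]; exact h4
  have hx1 : 1000 ≤ x := by
    have := Real.add_one_le_exp (1000 : ℝ)
    linarith
  set L := Real.log x with hLdef
  have hyL : (y : ℝ) ≤ ε / 8 * L := Nat.floor_le (by positivity)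
  have hyL' : (y : ℝ) ≤ L / 8 := by nlinarith
  have hy2 : (2 : ℝ) ≤ y := by exact_mod_cast h24
  -- bound for H
  set l := Real.log y with hl
  set l2 := Real.log l with hl2
  set l3 := Real.log l2 with hl3
  have hl20 : 0 < l2 := by linarith
  have hl0 : 0 < l := by linarith
  have h32 : l3 ≤ l2 := by
    have := Real.log_le_sub_one_of_pos hl20
    rw [← hl3] at this
    linarith
  have hR : rankinFn y = y * l ^ 2 * l3 / l2 ^ 2 := rfl
  have hR0 : 0 ≤ c * rankinFn y := by
    rw [hR]; positivity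
  have hly : l ≤ y := by
    have := Real.log_le_sub_one_of_pos (show (0 : ℝ) < y by linarith)
    rw [← hl] at this
    linarith
  have hH1 : (H : ℝ) ≤ y * l ^ 2 := by
    refine (Nat.floor_le hR0).trans ?_
    rw [hR]
    have h5 : l3 / l2 ^ 2 ≤ 1 := by
      rw [div_le_one (by positivity)]
      nlinarith
    have h6 : (0 : ℝ) ≤ y * l ^ 2 := by positivity
    calc c * (y * l ^ 2 * l3 / l2 ^ 2) = c * ((y * l ^ 2) * (l3 / l2 ^ 2)) := by ring
      _ ≤ 1 * ((y * l ^ 2) * 1) := by
          apply mul_le_mul hc1 _ (by positivity) (by norm_num)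
          exact mul_le_mul_of_nonneg_left h5 h6
      _ = _ := by ring
  have hH2 : (H : ℝ) ≤ L ^ 4 := by
    refine hH1.trans ?_
    have h5 : (y : ℝ) ≤ L := by linarith
    have h6 : l ≤ L := by linarith
    calc (y : ℝ) * l ^ 2 ≤ L * L ^ 2 := by
          apply mul_le_mul h5 _ (by positivity) (by linarith)
          exact pow_le_pow_left₀ hl0.le h6 2
      _ = L ^ 3 := by ring
      _ ≤ L ^ 4 := pow_le_pow_right₀ (by linarith) (by norm_num)
  have hyL4 : (y : ℝ) ≤ L ^ 4 := by
    have h5 : (y : ℝ) ≤ L := by linarith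
    exact h5.trans (le_self_pow₀ (by linarith) (by norm_num))
  -- the modulus
  set M := primorial y with hM
  have hM0 : 0 < M := primorial_pos y
  have hM1 : (1 : ℝ) ≤ M := by exact_mod_cast hM0
  set a' := a % M with ha'
  have ha'M : a' < M := Nat.mod_lt a hM0
  have hcop : ∀ h, Nat.Coprime (a' + h) M ↔ Nat.Coprime (a + h) M := by
    intro h
    have h6 : a + h = (a % M + h) + M * (a / M) := by
      have := Nat.mod_add_div a M
      omega
    rw [h6, Nat.coprime_add_mul_left_left]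
  set t0 := ⌈Y / M⌉₊ with ht0
  set N := ⌈x ^ (ε / 2)⌉₊ with hN
  classical
  set B := ((Finset.Icc 1 H).filter fun h => Nat.Coprime (a + h) M).image (fun h => a' + h)
    with hB
  obtain ⟨t, ht1, ht2, ht3⟩ := h3 M B
    (by
      intro p hp hpL hd
      have h5 := (hp.dvd_primorial_iff).mp hd
      have h6 : (p : ℝ) ≤ y := by exact_mod_cast h5
      linarith)
    (by
      intro b hb b' hb' hbb p hp hpL hd
      rw [hB, Finset.mem_image] at hb hb'
      obtain ⟨u, hu, rfl⟩ := hb
      obtain ⟨u', hu', rfl⟩ := hb'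
      rw [Finset.mem_filter, Finset.mem_Icc] at hu hu'
      have h5 : p ≤ a' + u' - (a' + u) := Nat.le_of_dvd (by omega) hd
      have h6 : (p : ℝ) ≤ H := by exact_mod_cast (show p ≤ H by omega)
      linarith)
    (by
      have h5 : (B.card : ℝ) ≤ 208 * c * y := by
        refine le_trans ?_ ha
        exact_mod_cast Finset.card_image_le
      have h6 : 208 * c * y ≤ 208 * c * (L / 8) :=
        mul_le_mul_of_nonneg_left hyL' (by positivity)
      have h7 : 208 * c * (L / 8) = (26 * c) * L := by ring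
      have h8 : (26 * c) * L ≤ c0 * L := mul_le_mul_of_nonneg_right hc2 (by linarith)
      linarith) t0 N (Nat.le_ceil _)
  have hY0 : 0 ≤ Y := by linarith
  have hYt : Y ≤ M * t := by
    have h5 : Y / M ≤ t := (Nat.le_ceil _).trans (by exact_mod_cast ht1)
    rw [div_le_iff₀ (by linarith)] at h5
    linarith
  have hYN : Y ≤ ((a' + M * t : ℕ) : ℝ) := by
    push_cast
    have : (0 : ℝ) ≤ a' := by positivity
    linarith
  refine ⟨a' + M * t, ?_, hYN, ?_, ?_⟩
  · have : (2 : ℝ) ≤ ((a' + M * t : ℕ) : ℝ) := by linarith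
    exact_mod_cast this
  · -- the size
    have h5 : (M : ℝ) ≤ x ^ (ε / 5) := by
      have h6 : (M : ℝ) ≤ (4 : ℝ) ^ y := by exact_mod_cast primorial_le_four_pow y
      refine h6.trans ?_
      rw [Real.rpow_def_of_pos hx0, ← Real.rpow_natCast, Real.rpow_def_of_pos (by norm_num)]
      apply Real.exp_le_exp.mpr
      have h7 : Real.log 4 ≤ 3 / 2 := by
        have : Real.log 4 = 2 * Real.log 2 := by
          rw [show (4 : ℝ) = 2 ^ 2 by norm_num, Real.log_pow]; norm_num
        have h2' := Real.log_two_lt_d9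
        linarith
      have h8 : (0 : ℝ) ≤ y := by positivity
      calc Real.log 4 * y ≤ (3 / 2) * (ε / 8 * L) := mul_le_mul h7 hyL h8 (by norm_num)
        _ ≤ L * (ε / 5) := by nlinarith
    have hε10 : (1 : ℝ) ≤ x ^ (ε / 10) := Real.one_le_rpow (by linarith) (by positivity)
    have h6 : (10 : ℝ) ≤ x ^ (ε / 10) := by
      rw [Real.rpow_def_of_pos hx0]
      have := Real.add_one_le_exp (L * (ε / 10))
      nlinarith
    have e5 : x ^ (ε / 5) = x ^ (ε / 10) * x ^ (ε / 10) := by
      rw [← Real.rpow_add hx0]; ring_nf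
    have e2 : x ^ (ε / 2) = (x ^ (ε / 10)) ^ 5 := by
      rw [← Real.rpow_natCast, ← Real.rpow_mul hx0.le]; ring_nf
    have e10 : x ^ ε = (x ^ (ε / 10)) ^ 10 := by
      rw [← Real.rpow_natCast, ← Real.rpow_mul hx0.le]; ring_nf
    set u := x ^ (ε / 10) with hu
    have h7 : (t : ℝ) ≤ Y / M + 1 + (u ^ 5 + 1) := by
      have h8 : (t : ℝ) < t0 + N := by exact_mod_cast ht2
      have h9 : (t0 : ℝ) < Y / M + 1 := Nat.ceil_lt_add_one (by positivity)
      have h10 : (N : ℝ) < x ^ (ε / 2) + 1 := Nat.ceil_lt_add_one (by positivity)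
      rw [e2] at h10
      linarith
    have h8 : (M : ℝ) * t ≤ Y + M * (u ^ 5 + 2) := by
      have h9 := mul_le_mul_of_nonneg_left h7 (show (0 : ℝ) ≤ M by linarith)
      have h10 : (M : ℝ) * (Y / M + 1 + (u ^ 5 + 1)) = Y + M * (u ^ 5 + 2) := by
        field_simp
        ring
      linarith
    have h9 : (a' : ℝ) ≤ M := by exact_mod_cast ha'M.le
    have h10 : (H : ℝ) ≤ u := hH2.trans h0
    push_cast
    rw [e5] at h5
    rw [e10]
    have h11 : (M : ℝ) * (u ^ 5 + 3) ≤ (u * u) * (u ^ 5 + 3) :=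
      mul_le_mul_of_nonneg_right h5 (by positivity)
    have h12 : (u * u) * (u ^ 5 + 3) + u + 1 ≤ u ^ 10 := by
      have h13 : u ^ 5 + 3 ≤ 2 * u ^ 5 := by
        have : (3 : ℝ) ≤ u ^ 5 := by
          calc (3 : ℝ) ≤ u := by linarith
            _ ≤ u ^ 5 := le_self_pow₀ hε10 (by norm_num)
        linarith
      have h14 : (u * u) * (u ^ 5 + 3) ≤ (u * u) * (2 * u ^ 5) :=
        mul_le_mul_of_nonneg_left h13 (by positivity)
      have h15 : u + 1 ≤ u ^ 7 := by
        have h16 : u ^ 2 ≤ u ^ 7 := pow_le_pow_right₀ hε10 (by norm_num)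
        nlinarith
      have h16 : 3 * u ^ 7 ≤ u ^ 10 := by
        have : u ^ 8 ≤ u ^ 10 := pow_le_pow_right₀ hε10 (by norm_num)
        have h17 : 3 * u ^ 7 ≤ u ^ 8 := by
          have : u ^ 8 = u * u ^ 7 := by ring
          rw [this]
          exact mul_le_mul_of_nonneg_right (by linarith) (by positivity)
        linarith
      have h17 : (u * u) * (2 * u ^ 5) = 2 * u ^ 7 := by ring
      linarith
    linarith
  · intro h hh hprime
    have h5 : a' + M * t + h = (a' + h) + M * t := by ring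
    have hbig : x ≤ ((a' + M * t + h : ℕ) : ℝ) := by
      push_cast
      push_cast at hYN
      have : (0 : ℝ) ≤ h := by positivity
      linarith
    rw [h5] at hprime hbig
    by_cases hco : Nat.Coprime (a + h) M
    · obtain ⟨p, hp, hp1, hp2⟩ := ht3 (a' + h) (by
        rw [hB, Finset.mem_image]
        exact ⟨h, Finset.mem_filter.mpr ⟨hh, hco⟩, rfl⟩)
      have h7 : p = a' + h + M * t := (Nat.prime_dvd_prime_iff_eq hp hprime).mp hp2
      have h8 : x ^ (ε / 2) ≤ x ^ (1 / 2 : ℝ) :=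
        Real.rpow_le_rpow_of_exponent_le (by linarith) (by linarith)
      have h9 : x ^ (1 / 2 : ℝ) < x := by
        conv_rhs => rw [← Real.rpow_one x]
        exact Real.rpow_lt_rpow_of_exponent_lt (by linarith) (by norm_num)
      rw [h7] at hp1
      linarith
    · rw [← hcop h, Nat.Prime.not_coprime_iff_dvd] at hco
      obtain ⟨p, hp, hp1, hp2⟩ := hco
      have h6 : p ∣ a' + h + M * t := Nat.dvd_add hp1 (hp2.mul_right t)
      have h7 : p = a' + h + M * t := (Nat.prime_dvd_prime_iff_eq hp hprime).mp h6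
      have h8 : p ≤ y := (hp.dvd_primorial_iff).mp hp2
      have h9 : (p : ℝ) ≤ y := by exact_mod_cast h8
      rw [h7] at h9
      have h10 : L ≤ x := by
        have := Real.log_le_sub_one_of_pos hx0
        linarith
      linarith

/-- **Large gaps between primes in short intervals** from the suppression theorem. -/
theorem local_gaps (hS : ∀ ε : ℝ, 0 < ε → ε ≤ 1 → ∃ c0 : ℝ, 0 < c0 ∧ SuppressionLoc ε c0) :
    LocalGaps := by
  have main : ∀ ε : ℝ, 0 < ε → ε ≤ 1 → ∃ c : ℝ, 0 < c ∧ ∀ᶠ X : ℝ in atTop, ∀ Y : ℝ, X ≤ Y →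
      ∃ n : ℕ, c * gapFn X ≤
        min (Nat.nth Nat.Prime (n + 1) : ℝ) (Y + X ^ ε) - max (Nat.nth Nat.Prime n : ℝ) Y := by
    intro ε hε hε1
    obtain ⟨c0, hc0, hS'⟩ := hS (ε / 2) (by positivity) (by linarith)
    obtain ⟨c, hc, h⟩ := exists_free_loc ε c0 hε hε1 hc0 hS'
    refine ⟨c * ε / 128, by positivity, ?_⟩
    have ty : Tendsto (fun x : ℝ => ⌊ε / 8 * Real.log x⌋₊) atTop atTop :=
      tendsto_nat_floor_atTop.comp (Real.tendsto_log_atTop.const_mul_atTop (by positivity))
    have e2 := ty.eventually (eventually_cond 80)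
    have t2 : Tendsto (fun x : ℝ => Real.log (Real.log x)) atTop atTop :=
      Real.tendsto_log_atTop.comp Real.tendsto_log_atTop
    have t4 : Tendsto (fun x : ℝ => Real.log (Real.log (Real.log (Real.log x)))) atTop atTop :=
      Real.tendsto_log_atTop.comp (Real.tendsto_log_atTop.comp
        (Real.tendsto_log_atTop.comp Real.tendsto_log_atTop))
    have tl : Tendsto (fun x : ℝ => ε * Real.log x) atTop atTop :=
      Real.tendsto_log_atTop.const_mul_atTop (by positivity)
    filter_upwards [h, e2, t4.eventually_ge_atTop 10, eventually_ge_atTop (Real.exp 1000),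
      tl.eventually_ge_atTop 1000, t2.eventually_ge_atTop (2 * Real.log (16 / ε))] with
      x h1 h2 h3 h4 hεL hεL2 Y hY
    obtain ⟨N, hN2, hYN, hNY, hfree⟩ := h1 Y hY
    obtain ⟨n, hn1, hn2⟩ := exists_gap N _ hN2 hfree
    refine ⟨n, ?_⟩
    have hx0 : 0 < x := lt_of_lt_of_le (Real.exp_pos _) h4
    have hL : 1000 ≤ Real.log x := by
      rw [Real.le_log_iff_exp_le hx0]; exact h4
    obtain ⟨h21, h22, h23, h24⟩ := h2
    set y := ⌊ε / 8 * Real.log x⌋₊ with hy
    set H := ⌊c * rankinFn y⌋₊ with hH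
    set L := Real.log x with hLdef
    set L2 := Real.log L with hL2
    set L3 := Real.log L2 with hL3
    set L4 := Real.log L3 with hL4
    set l := Real.log y with hl
    set l2 := Real.log l with hl2
    set l3 := Real.log l2 with hl3
    have hyL : (y : ℝ) ≤ ε / 8 * L := Nat.floor_le (by positivity)
    have hyL' : ε / 16 * L ≤ y := by
      have : ε / 8 * L < y + 1 := Nat.lt_floor_add_one _
      linarith
    have hy2 : (2 : ℝ) ≤ y := by exact_mod_cast h24
    have hy0 : (0 : ℝ) < y := by linarith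
    have hl20 : 0 < l2 := by linarith
    have hl0 : 0 < l := by linarith
    have hll : l ≤ L2 := by
      apply Real.log_le_log hy0
      nlinarith
    have hl2L : l2 ≤ L3 := Real.log_le_log hl0 hll
    have hL30 : 0 < L3 := lt_of_lt_of_le hl20 hl2L
    have hL20 : 0 < L2 := lt_of_lt_of_le hl0 hll
    have hL0 : 0 < L := by linarith
    have hL3b : 20 ≤ L3 := by linarith
    have hlb : L2 / 2 ≤ l := by
      have h5 : Real.log (L / (16 / ε)) ≤ l := by
        apply Real.log_le_log (by positivity)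
        have : L / (16 / ε) = ε / 16 * L := by field_simp
        rw [this]
        exact hyL'
      rw [Real.log_div hL0.ne' (by positivity), ← hL2] at h5
      linarith
    have hl2b : L3 / 2 ≤ l2 := by
      have h5 : Real.log (L2 / 2) ≤ l2 := Real.log_le_log (by positivity) hlb
      rw [Real.log_div hL20.ne' (by norm_num), ← hL3] at h5
      have h2' := Real.log_two_lt_d9
      linarith
    have hl3b : L4 / 2 ≤ l3 := by
      have h5 : Real.log (L3 / 2) ≤ l3 := Real.log_le_log (by positivity) hl2b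
      rw [Real.log_div hL30.ne' (by norm_num), ← hL4] at h5
      have h2' := Real.log_two_lt_d9
      linarith
    have hL40 : 0 < L4 := by linarith
    have hR : rankinFn y = y * l ^ 2 * l3 / l2 ^ 2 := rfl
    have hG : gapFn x = L * L2 ^ 2 * L4 / L3 ^ 2 := rfl
    have h5 : ε * gapFn x / 128 ≤ rankinFn y := by
      rw [hG, hR]
      have h6 : (ε / 16 * L) * (L2 / 2) ^ 2 * (L4 / 2) ≤ y * l ^ 2 * l3 := by
        apply mul_le_mul _ hl3b (by positivity) (by positivity)
        apply mul_le_mul hyL' _ (by positivity) (by positivity)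
        exact pow_le_pow_left₀ (by positivity) hlb 2
      have h7 : l2 ^ 2 ≤ L3 ^ 2 := pow_le_pow_left₀ hl20.le hl2L 2
      calc ε * (L * L2 ^ 2 * L4 / L3 ^ 2) / 128
          = (ε / 16 * L) * (L2 / 2) ^ 2 * (L4 / 2) / L3 ^ 2 := by ring
        _ ≤ (y * l ^ 2 * l3) / L3 ^ 2 := div_le_div_of_nonneg_right h6 (by positivity)
        _ ≤ (y * l ^ 2 * l3) / l2 ^ 2 := by
            apply div_le_div_of_nonneg_left _ (by positivity) h7
            have : 0 < l3 := by linarith
            positivity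
    have h6 : c * rankinFn y < H + 1 := Nat.lt_floor_add_one _
    have h7 : (N : ℝ) + H + 1 ≤ Nat.nth Nat.Prime (n + 1) := by
      have h8 : N + H + 1 ≤ Nat.nth Nat.Prime (n + 1) := hn2
      exact_mod_cast h8
    have h8 : (Nat.nth Nat.Prime n : ℝ) ≤ N := by exact_mod_cast hn1
    have h9 : max (Nat.nth Nat.Prime n : ℝ) Y ≤ N := max_le h8 hYN
    have h10 : (N : ℝ) + H + 1 ≤ min (Nat.nth Nat.Prime (n + 1) : ℝ) (Y + x ^ ε) :=
      le_min h7 hNY
    calc c * ε / 128 * gapFn x = c * (ε * gapFn x / 128) := by ring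
      _ ≤ c * rankinFn y := mul_le_mul_of_nonneg_left h5 hc.le
      _ ≤ H + 1 := h6.le
      _ ≤ _ := by linarith
  intro ε hε
  obtain ⟨c, hc, h⟩ := main (min ε 1) (lt_min hε one_pos) (min_le_right _ _)
  refine ⟨c, hc, ?_⟩
  filter_upwards [h, eventually_ge_atTop 1] with x hx h1 Y hY _
  obtain ⟨n, hn⟩ := hx Y hY
  refine ⟨n, hn.trans ?_⟩
  have h2 : x ^ (min ε 1) ≤ x ^ ε := Real.rpow_le_rpow_of_exponent_le h1 (min_le_left _ _)
  have h3 : min (Nat.nth Nat.Prime (n + 1) : ℝ) (Y + x ^ (min ε 1)) ≤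
      min (Nat.nth Nat.Prime (n + 1) : ℝ) (Y + x ^ ε) := min_le_min_left _ (by linarith)
  linarith

end Pool.Agent.H7R
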