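import Pool.Agent.Lib.H7R.Count

/-!
# The Erdos-Rankin choice of residues

For every `0 < c ≤ 1` and all large `y` there is a residue class `a` modulo `primorial y` such that at
most `208 c y` of the numbers `a + h`, `1 ≤ h ≤ c y (log y)² log₃ y / (log₂ y)²`, are coprime to
`primorial y`.
-/

set_option autoImplicit false

namespace Pool.Agent.H7R

open Finset Filter
open Pool.Agent.Lib.Sieve

/-- `y (log y)² log₃ y / (log₂ y)²` -/
noncomputable def rankinFn (y : ℝ) : ℝ :=
  y * Real.log y ^ 2 * Real.log (Real.log (Real.log y)) / Real.log (Real.log y) ^ 2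

theorem eventually_cond (K : ℝ) : ∀ᶠ y : ℕ in atTop,
    20 ≤ Real.log (Real.log y) ∧ 1 ≤ Real.log (Real.log (Real.log y)) ∧
      K * Real.log (Real.log y) ≤ Real.log y ∧ 2 ≤ y := by
  have t0 : Tendsto (fun y : ℕ => (y : ℝ)) atTop atTop := tendsto_natCast_atTop_atTop
  have t1 : Tendsto (fun y : ℕ => Real.log y) atTop atTop := Real.tendsto_log_atTop.comp t0
  have t2 : Tendsto (fun y : ℕ => Real.log (Real.log y)) atTop atTop :=
    Real.tendsto_log_atTop.comp t1
  have t3 : Tendsto (fun y : ℕ => Real.log (Real.log (Real.log y))) atTop atTop :=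
    Real.tendsto_log_atTop.comp t2
  have hK : ∀ᶠ t : ℝ in atTop, K * Real.log t ≤ t := by
    have h1 := (Real.isLittleO_log_id_atTop).bound (c := 1 / (|K| + 1)) (by positivity)
    filter_upwards [h1, eventually_ge_atTop (1 : ℝ)] with t ht h1t
    have e1 : ‖Real.log t‖ = Real.log t := by
      rw [Real.norm_eq_abs, abs_of_nonneg (Real.log_nonneg h1t)]
    have e2 : ‖(id t : ℝ)‖ = t := by
      rw [id, Real.norm_eq_abs, abs_of_nonneg (by linarith)]
    rw [e1, e2] at ht
    have h2 : 0 ≤ Real.log t := Real.log_nonneg h1t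
    calc K * Real.log t ≤ (|K| + 1) * Real.log t :=
          mul_le_mul_of_nonneg_right (by linarith [le_abs_self K]) h2
      _ ≤ (|K| + 1) * (1 / (|K| + 1) * t) := mul_le_mul_of_nonneg_left ht (by positivity)
      _ = t := by field_simp
  filter_upwards [t2.eventually_ge_atTop 20, t3.eventually_ge_atTop 1, t1.eventually hK,
    eventually_ge_atTop 2] with y h1 h2 h3 h4
  exact ⟨h1, h2, h3, h4⟩

/-- The survivors of the sieve by `0` modulo the primes in `(z, y]`. -/
theorem surv_bound (y H : ℕ) (h1 : 20 ≤ Real.log (Real.log y))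
    (h2 : 1 ≤ Real.log (Real.log (Real.log y)))
    (h3 : 80 * Real.log (Real.log y) ≤ Real.log y) (h4 : 2 ≤ y) (hyH : y ≤ H)
    (hH : (H : ℝ) ≤ y * Real.log y ^ 2) :
    ∃ z : ℕ, 2 ≤ z ∧ z ≤ y ∧
      Real.log y * Real.log (Real.log (Real.log y)) / (16 * Real.log (Real.log y)) ≤ Real.log z ∧
      ((surv z y H).card : ℝ) ≤ H * (13 * Real.log (Real.log y) / Real.log y) := by
  set l := Real.log y with hl
  set l2 := Real.log l with hl2
  set l3 := Real.log l2 with hl3
  have hy0 : (0 : ℝ) < y := by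
    have : (2 : ℝ) ≤ y := by exact_mod_cast h4
    linarith
  have hl0 : 0 < l := by linarith
  have hl20 : 0 < l2 := by linarith
  have h32 : l3 ≤ l2 := by
    have := Real.log_le_sub_one_of_pos hl20
    rw [← hl3] at this
    linarith
  set X := l * l3 / (8 * l2) with hX
  have hX10 : 10 ≤ X := by
    rw [hX, le_div_iff₀ (by positivity)]
    nlinarith
  have hXl : X ≤ l := by
    rw [hX, div_le_iff₀ (by positivity)]
    nlinarith
  have hexpl : Real.exp l = y := Real.exp_log hy0
  have hexpl2 : Real.exp l2 = l := Real.exp_log hl0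
  have hexpl3 : Real.exp l3 = l2 := Real.exp_log hl20
  set z := ⌊Real.exp X⌋₊ with hz
  have hz1 : (z : ℝ) ≤ Real.exp X := Nat.floor_le (Real.exp_pos _).le
  have hz2 : Real.exp (X / 2) ≤ z := by
    have h5 : Real.exp X < z + 1 := Nat.lt_floor_add_one _
    have h6 : Real.exp X = Real.exp (X / 2) * Real.exp (X / 2) := by
      rw [← Real.exp_add]; congr 1; ring
    have h7 : 2 ≤ Real.exp (X / 2) := by
      have := Real.add_one_le_exp (X / 2)
      linarith
    nlinarith
  have hzy : z ≤ y := by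
    have : (z : ℝ) ≤ y := by
      rw [← hexpl]
      exact hz1.trans (Real.exp_le_exp.mpr hXl)
    exact_mod_cast this
  have hz2' : 2 ≤ z := by
    have : (2 : ℝ) ≤ z := by
      have := Real.add_one_le_exp (X / 2)
      linarith
    exact_mod_cast this
  have hz0 : (0 : ℝ) < z := by positivity
  have hlogz : X / 2 ≤ Real.log z := by
    rw [Real.le_log_iff_exp_le hz0]
    exact hz2
  have hlogz' : Real.log z ≤ X := by
    rw [Real.log_le_iff_le_exp hz0]
    exact hz1
  have hlogz0 : 0 < Real.log z := by linarith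
  refine ⟨z, hz2', hzy, ?_, ?_⟩
  · calc l * l3 / (16 * l2) = X / 2 := by rw [hX]; field_simp; norm_num
      _ ≤ _ := hlogz
  -- the smooth numbers
  set η := l3 / (2 * Real.log z) with hη
  have hη0 : 0 < η := by positivity
  have hη1 : η ≤ 1 / 10 := by
    rw [hη, div_le_iff₀ (by positivity)]
    have h5 : 10 * l3 ≤ X := by
      rw [hX, le_div_iff₀ (by positivity)]
      nlinarith
    linarith
  have hηz : η * Real.log z = l3 / 2 := by
    rw [hη]; field_simp
  have hηl : 4 * l2 ≤ η * l := by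
    rw [hη, div_mul_eq_mul_div, le_div_iff₀ (by positivity)]
    have h5 : Real.log z * (8 * l2) ≤ l * l3 := by
      have := hlogz'
      rw [hX, le_div_iff₀ (by positivity)] at this
      exact this
    nlinarith
  have hsqrt : Real.exp (l3 / 2) * Real.exp (l3 / 2) = l2 := by
    rw [← Real.exp_add, ← hexpl3]; congr 1; ring
  have hl3s : l3 ≤ Real.exp (l3 / 2) := by
    have h5 := Real.quadratic_le_exp_of_nonneg (x := l3 / 2) (by linarith)
    nlinarith [sq_nonneg (l3 / 2 - 1)]
  have hmid : η * Real.exp (η * Real.log z) * (Real.log z + 2) ≤ l2 := by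
    rw [hηz]
    have h5 : η * (Real.log z + 2) ≤ l3 := by
      rw [mul_add, hηz]
      have : η * 2 ≤ l3 / 2 := by
        rw [hη, div_mul_eq_mul_div, div_le_iff₀ (by positivity)]
        nlinarith
      linarith
    calc η * Real.exp (l3 / 2) * (Real.log z + 2) = (η * (Real.log z + 2)) * Real.exp (l3 / 2) := by
          ring
      _ ≤ Real.exp (l3 / 2) * Real.exp (l3 / 2) :=
          mul_le_mul_of_nonneg_right (h5.trans hl3s) (Real.exp_pos _).le
      _ = l2 := hsqrt
  have hH0 : (0 : ℝ) < H := by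
    have : (y : ℝ) ≤ H := by exact_mod_cast hyH
    linarith
  have hlH : l ≤ Real.log H := Real.log_le_log hy0 (by exact_mod_cast hyH)
  have hsm : (((Finset.Icc 1 H).filter (fun n => ∀ p ∈ n.primeFactors, p ≤ z)).card : ℝ) ≤
      H * (1 / l) := by
    refine (smooth_le' z H hz2' η hη0 hη1).trans ?_
    have h5 : (H : ℝ) ^ (1 - η) ≤ H * Real.exp (-(4 * l2)) := by
      rw [sub_eq_add_neg, Real.rpow_add hH0, Real.rpow_one]
      apply mul_le_mul_of_nonneg_left _ hH0.le
      rw [Real.rpow_def_of_pos hH0]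
      apply Real.exp_le_exp.mpr
      nlinarith
    have h6 : Real.log z ≤ Real.exp l2 := by
      rw [hexpl2]; linarith
    have h7 : Real.exp (20 + η * Real.exp (η * Real.log z) * (Real.log z + 2)) * Real.log z ≤
        Real.exp (20 + l2) * Real.exp l2 :=
      mul_le_mul (Real.exp_le_exp.mpr (by linarith)) h6 hlogz0.le (Real.exp_pos _).le
    calc (H : ℝ) ^ (1 - η) *
          (Real.exp (20 + η * Real.exp (η * Real.log z) * (Real.log z + 2)) * Real.log z)
        ≤ (H * Real.exp (-(4 * l2))) * (Real.exp (20 + l2) * Real.exp l2) :=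
          mul_le_mul h5 h7 (by positivity) (by positivity)
      _ = H * Real.exp (20 - 2 * l2) := by
          rw [mul_assoc, ← Real.exp_add, ← Real.exp_add]
          congr 2
          ring
      _ ≤ H * (1 / l) := by
          apply mul_le_mul_of_nonneg_left _ hH0.le
          rw [one_div, ← hexpl2, ← Real.exp_neg]
          apply Real.exp_le_exp.mpr
          linarith
  -- the large prime factors
  set J := ⌈3 * l2⌉₊ with hJ
  have hJ1 : 3 * l2 ≤ J := Nat.le_ceil _
  have hJ2 : (J : ℝ) < 3 * l2 + 1 := Nat.ceil_lt_add_one (by positivity)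
  have hHJ : H ≤ 2 ^ J * y := by
    have h5 : l ^ 2 ≤ (2 : ℝ) ^ J := by
      have h6 : l ^ 2 = Real.exp (2 * l2) := by
        rw [← hexpl2, ← Real.exp_nat_mul]; norm_num
      have h7 : (2 : ℝ) ^ J = Real.exp (J * Real.log 2) := by
        rw [mul_comm, Real.exp_mul, Real.exp_log (by norm_num), Real.rpow_natCast]
      rw [h6, h7]
      apply Real.exp_le_exp.mpr
      have h8 := Real.log_two_gt_d9
      nlinarith
    have h6 : (H : ℝ) ≤ ((2 ^ J * y : ℕ) : ℝ) := by
      push_cast
      calc (H : ℝ) ≤ y * l ^ 2 := hH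
        _ ≤ y * 2 ^ J := mul_le_mul_of_nonneg_left h5 hy0.le
        _ = _ := by ring
    exact_mod_cast h6
  have h5 := surv_card_le z y H J h4 hHJ
  calc ((surv z y H).card : ℝ) ≤ _ := h5
    _ ≤ H * (1 / l) + H * (3 * J / l) := by gcongr
    _ = H * ((1 + 3 * J) / l) := by ring
    _ ≤ H * (13 * l2 / l) := by
        apply mul_le_mul_of_nonneg_left _ hH0.le
        apply div_le_div_of_nonneg_right _ hl0.le
        linarith

/-- The Chinese remainder theorem for the chosen residues. -/
theorem exists_shift (z y H : ℕ) (hzy : z ≤ y) (r : ℕ → ℕ) : ∃ a : ℕ,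
    ((Finset.Icc 1 H).filter fun h => Nat.Coprime (a + h) (primorial y)) ⊆
      (surv z y H).filter fun n => ∀ p ∈ primesUpTo z, ¬ n ≡ r p [MOD p] := by
  classical
  obtain ⟨a, ha⟩ := Nat.chineseRemainderOfFinset
    (fun p => if p ≤ z then p - r p % p else 0) id (primesUpTo y)
    (fun p hp => (mem_primesUpTo.mp hp).1.ne_zero)
    (fun p hp q hq hpq => (Nat.coprime_primes (mem_primesUpTo.mp hp).1
      (mem_primesUpTo.mp hq).1).mpr hpq)
  refine ⟨a, fun h hh => ?_⟩
  rw [Finset.mem_filter] at hh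
  have hnd : ∀ p, p.Prime → p ≤ y → ¬ p ∣ a + h := by
    intro p hp hpy hd
    have h1 : p ∣ primorial y := hp.dvd_primorial_iff.mpr hpy
    have h2 := Nat.dvd_gcd hd h1
    rw [hh.2] at h2
    exact hp.one_lt.ne' (Nat.dvd_one.mp h2)
  unfold surv
  rw [Finset.mem_filter, Finset.mem_filter]
  refine ⟨⟨hh.1, fun p hp hzp hd => ?_⟩, fun p hp hr => ?_⟩
  · have hp' := mem_primesUpTo.mp hp
    have h1 := ha p hp
    simp only [id] at h1
    rw [if_neg (by omega)] at h1
    exact hnd p hp'.1 hp'.2 (Nat.dvd_add ((Nat.modEq_zero_iff_dvd).mp h1) hd)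
  · have hp' := mem_primesUpTo.mp hp
    have h1 := ha p (mem_primesUpTo.mpr ⟨hp'.1, hp'.2.trans hzy⟩)
    simp only [id] at h1
    rw [if_pos hp'.2] at h1
    refine hnd p hp'.1 (hp'.2.trans hzy) ?_
    rw [← Nat.modEq_zero_iff_dvd]
    have h2 : a + h ≡ (p - r p % p) + r p % p [MOD p] :=
      h1.add (hr.trans (Nat.mod_modEq _ _).symm)
    rw [Nat.sub_add_cancel (Nat.mod_lt _ hp'.1.pos).le] at h2
    exact h2.trans (by rw [Nat.modEq_zero_iff_dvd])

/-- **The Erdos-Rankin choice of residues.** -/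
theorem exists_residue (c : ℝ) (hc : 0 < c) (hc1 : c ≤ 1) : ∀ᶠ y : ℕ in atTop, ∃ a : ℕ,
    ((((Finset.Icc 1 ⌊c * rankinFn y⌋₊).filter
      fun h => Nat.Coprime (a + h) (primorial y)).card : ℕ) : ℝ) ≤ 208 * c * y := by
  filter_upwards [eventually_cond (max 80 (2 / c))] with y ⟨h1, h2, h3, h4⟩
  set H := ⌊c * rankinFn y⌋₊ with hHdef
  have hy0 : (2 : ℝ) ≤ y := by exact_mod_cast h4
  set l := Real.log y with hl
  set l2 := Real.log l with hl2
  set l3 := Real.log l2 with hl3
  have hl20 : 0 < l2 := by linarith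
  have h3a : 80 * l2 ≤ l := (mul_le_mul_of_nonneg_right (le_max_left _ _) hl20.le).trans h3
  have h3b : 2 / c * l2 ≤ l := (mul_le_mul_of_nonneg_right (le_max_right _ _) hl20.le).trans h3
  have hl0 : 0 < l := by linarith
  have h32 : l3 ≤ l2 := by
    have := Real.log_le_sub_one_of_pos hl20
    rw [← hl3] at this
    linarith
  have hR : rankinFn y = y * l ^ 2 * l3 / l2 ^ 2 := rfl
  have hR0 : 0 ≤ c * rankinFn y := by
    rw [hR]; positivity
  have hH1 : (H : ℝ) ≤ c * rankinFn y := Nat.floor_le hR0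
  have hH2 : (H : ℝ) ≤ y * l ^ 2 := by
    refine hH1.trans ?_
    rw [hR]
    have h5 : l3 / l2 ^ 2 ≤ 1 := by
      rw [div_le_one (by positivity)]
      nlinarith
    have h6 : (0 : ℝ) ≤ y * l ^ 2 := by positivity
    calc c * (y * l ^ 2 * l3 / l2 ^ 2) = c * ((y * l ^ 2) * (l3 / l2 ^ 2)) := by ring
      _ ≤ 1 * ((y * l ^ 2) * 1) := by
          apply mul_le_mul hc1 _ (by positivity) (by norm_num)
          exact mul_le_mul_of_nonneg_left h5 h6
      _ = _ := by ring
  have hyH : y ≤ H := by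
    apply Nat.le_floor
    rw [hR]
    have h5 : 1 ≤ c * (l ^ 2 * l3 / l2 ^ 2) := by
      rw [← mul_div_assoc, le_div_iff₀ (by positivity), one_mul]
      have h6 : 2 * l2 ≤ c * l := by
        have : 2 / c * l2 = 2 * l2 / c := by ring
        rw [this, div_le_iff₀ hc] at h3b
        linarith
      nlinarith [mul_le_mul h6 h3a (by positivity) (by positivity)]
    calc (y : ℝ) = y * 1 := by ring
      _ ≤ y * (c * (l ^ 2 * l3 / l2 ^ 2)) := mul_le_mul_of_nonneg_left h5 (by linarith)
      _ = _ := by ring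
  obtain ⟨z, hz2, hzy, hz3, hz4⟩ := surv_bound y H h1 h2 h3a h4 hyH hH2
  obtain ⟨r, hr⟩ := greedy (surv z y H) (primesUpTo z) fun p hp => (mem_primesUpTo.mp hp).1
  obtain ⟨a, ha⟩ := exists_shift z y H hzy r
  refine ⟨a, ?_⟩
  have hlogz : 0 < Real.log z := lt_of_lt_of_le (by positivity) hz3
  have h5 : ∏ p ∈ primesUpTo z, (1 - 1 / (p : ℝ)) ≤ 16 * l2 / (l * l3) := by
    refine (prod_one_sub_inv_le z hz2).trans ?_
    rw [div_le_div_iff₀ hlogz (by positivity), one_mul]
    rw [div_le_iff₀ (by positivity)] at hz3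
    linarith
  have h6 : ((((Finset.Icc 1 H).filter
      fun h => Nat.Coprime (a + h) (primorial y)).card : ℕ) : ℝ) ≤
      (surv z y H).card * ∏ p ∈ primesUpTo z, (1 - 1 / (p : ℝ)) := by
    refine le_trans ?_ hr
    exact_mod_cast Finset.card_le_card ha
  have h7 : (0 : ℝ) ≤ ∏ p ∈ primesUpTo z, (1 - 1 / (p : ℝ)) := by
    apply Finset.prod_nonneg
    intro p hp
    have hp1 : (1 : ℝ) < p := by exact_mod_cast (mem_primesUpTo.mp hp).1.one_lt
    have : (1 : ℝ) / p ≤ 1 := by rw [div_le_one (by linarith)]; linarith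
    linarith
  calc _ ≤ _ := h6
    _ ≤ (H * (13 * l2 / l)) * (16 * l2 / (l * l3)) :=
        mul_le_mul hz4 h5 h7 (by positivity)
    _ = H * (208 * l2 ^ 2 / (l ^ 2 * l3)) := by ring
    _ ≤ (c * rankinFn y) * (208 * l2 ^ 2 / (l ^ 2 * l3)) :=
        mul_le_mul_of_nonneg_right hH1 (by positivity)
    _ = 208 * c * y := by
        rw [hR]
        field_simp

end Pool.Agent.H7R
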