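import Pool.Agent.Lib.H10.LPF.Smooth

/-!
# Rankin's bound for smooth numbers, long range version

`Ψ(U, z) ≤ U ^ (1 - η) * exp (200 + η z^η (log z + 2)) * log z` for `0 < η ≤ 1 / 10`.
-/

set_option autoImplicit false

namespace Pool.Agent.H7R

open Finset
open Pool.Agent.Lib.Sieve
open Pool.Agent.Lib.Helper57
open Pool.Agent.Lib.H10.LPF

/-- The sum of `p ^ (-3/2)` over a finite set of primes. -/
theorem sum_three_half_le (z : ℕ) :
    ∑ p ∈ primesUpTo z, (p : ℝ) ^ (-(3 / 2 : ℝ)) ≤ 4 := by
  have h1 : ∀ n : ℕ, 1 ≤ n → ∑ m ∈ Finset.Icc 2 n, (m : ℝ) ^ (-(3 / 2 : ℝ)) ≤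
      2 - 2 * (n : ℝ) ^ (-(1 / 2 : ℝ)) := by
    intro n hn
    induction n, hn using Nat.le_induction with
    | base => simp
    | succ n hn ih =>
      rw [← Finset.insert_Icc_right_eq_Icc_add_one (by omega), Finset.sum_insert (by simp)]
      have hn0 : (0 : ℝ) < n := by exact_mod_cast hn
      have hn1 : (0 : ℝ) < ((n + 1 : ℕ) : ℝ) := by positivity
      set a := Real.sqrt n with ha
      set b := Real.sqrt ((n + 1 : ℕ) : ℝ) with hb
      have ha0 : 0 < a := Real.sqrt_pos.mpr hn0
      have hb0 : 0 < b := Real.sqrt_pos.mpr hn1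
      have ha2 : a ^ 2 = n := Real.sq_sqrt hn0.le
      have hb2 : b ^ 2 = n + 1 := by
        have := Real.sq_sqrt hn1.le
        push_cast at this
        rw [← this, hb]
        push_cast
        rfl
      have e1 : (n : ℝ) ^ (-(1 / 2 : ℝ)) = 1 / a := by
        rw [Real.rpow_neg hn0.le, ← Real.sqrt_eq_rpow, one_div]
      have e2 : ((n + 1 : ℕ) : ℝ) ^ (-(1 / 2 : ℝ)) = 1 / b := by
        rw [Real.rpow_neg hn1.le, ← Real.sqrt_eq_rpow, one_div]
      have e3 : ((n + 1 : ℕ) : ℝ) ^ (-(3 / 2 : ℝ)) = 1 / b ^ 3 := by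
        rw [Real.rpow_neg hn1.le, show (3 / 2 : ℝ) = (1 / 2 : ℝ) * ((3 : ℕ) : ℝ) by norm_num,
          Real.rpow_mul hn1.le, ← Real.sqrt_eq_rpow, Real.rpow_natCast, one_div]
      rw [e1] at ih
      rw [e2, e3]
      have hab : a ≤ b := Real.sqrt_le_sqrt (by push_cast; linarith)
      have h2 : 1 / b ^ 3 ≤ 2 * (1 / a) - 2 * (1 / b) := by
        rw [show 2 * (1 / a) - 2 * (1 / b) = 2 * (b - a) / (a * b) by field_simp,
          div_le_div_iff₀ (by positivity) (by positivity)]
        have h3 : (b - a) * (b + a) = 1 := by nlinarith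
        have h4 : 0 ≤ b - a := by linarith
        have h5 : 1 ≤ (b - a) * (2 * b) := by nlinarith
        have h6 : 0 < a * b := by positivity
        nlinarith [mul_nonneg h4 hb0.le, mul_pos ha0 hb0, mul_pos hb0 hb0,
          mul_le_mul_of_nonneg_right h5 (mul_pos hb0 hb0).le,
          mul_le_mul_of_nonneg_right hab hb0.le]
      linarith
  rcases Nat.lt_or_ge z 1 with h | h
  · have : primesUpTo z = ∅ := by
      ext p
      rw [mem_primesUpTo]
      constructor
      · rintro ⟨h1, h2⟩
        have := h1.two_le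
        omega
      · intro h
        simp at h
    rw [this]
    simp
  · calc ∑ p ∈ primesUpTo z, (p : ℝ) ^ (-(3 / 2 : ℝ))
        ≤ ∑ m ∈ Finset.Icc 2 z, (m : ℝ) ^ (-(3 / 2 : ℝ)) := by
          apply Finset.sum_le_sum_of_subset_of_nonneg
          · intro p hp
            have := mem_primesUpTo.mp hp
            rw [Finset.mem_Icc]
            exact ⟨this.1.two_le, this.2⟩
          · intro p _ _
            positivity
      _ ≤ _ := h1 z h
      _ ≤ 4 := by
          have : (0 : ℝ) ≤ (z : ℝ) ^ (-(1 / 2 : ℝ)) := by positivity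
          linarith

/-- The Euler product in Rankin's inequality, long range. -/
theorem euler_le' (z : ℕ) (hz : 2 ≤ z) (η : ℝ) (h0 : 0 < η) (h1 : η ≤ 1 / 10) :
    ∏ p ∈ primesUpTo z, (1 - (p : ℝ) ^ (-(1 - η)))⁻¹ ≤
      Real.exp (20 + η * Real.exp (η * Real.log z) * (Real.log z + 2)) * Real.log z := by
  have hz' : (2 : ℝ) ≤ z := by exact_mod_cast hz
  have hlogz : 0 < Real.log z := Real.log_pos (by linarith)
  set X := η * Real.log z with hX
  -- bounds for one prime
  have key : ∀ p ∈ primesUpTo z, (1 - (p : ℝ) ^ (-(1 - η)))⁻¹ ≤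
      Real.exp (1 / p + η * Real.exp X * (Real.log p / p) + 3 * (p : ℝ) ^ (-(3 / 2 : ℝ))) := by
    intro p hp
    have hp' := mem_primesUpTo.mp hp
    have hp2 : (2 : ℝ) ≤ p := by exact_mod_cast hp'.1.two_le
    have hp0 : (0 : ℝ) < p := by linarith
    have hpz : (p : ℝ) ≤ z := by exact_mod_cast hp'.2
    have hlogp : 0 < Real.log p := Real.log_pos (by linarith)
    have hlogpz : Real.log p ≤ Real.log z := Real.log_le_log hp0 hpz
    set t := (p : ℝ) ^ (-(1 - η)) with ht
    have htp : 0 < t := Real.rpow_pos_of_pos hp0 _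
    have ht1 : t = (p : ℝ) ^ η / p := by
      rw [ht, show -(1 - η) = η - 1 by ring, Real.rpow_sub hp0, Real.rpow_one]
    have hx : (p : ℝ) ^ η = Real.exp (η * Real.log p) := by
      rw [Real.rpow_def_of_pos hp0, mul_comm]
    -- `t ≤ 0.54`
    have ht2 : t ≤ 0.54 := by
      have : t ≤ (2 : ℝ) ^ (-(0.9 : ℝ)) := by
        rw [ht]
        calc (p : ℝ) ^ (-(1 - η)) ≤ (2 : ℝ) ^ (-(1 - η)) := by
              apply Real.rpow_le_rpow_of_nonpos (by norm_num) hp2
              linarith
          _ ≤ (2 : ℝ) ^ (-(0.9 : ℝ)) := by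
              apply Real.rpow_le_rpow_of_exponent_le (by norm_num)
              linarith
      refine this.trans ?_
      rw [Real.rpow_neg (by norm_num)]
      have h3 : (1.8519 : ℝ) ≤ (2 : ℝ) ^ (0.9 : ℝ) := by
        have : (2 : ℝ) ^ (0.9 : ℝ) = ((2 : ℝ) ^ (9 : ℕ)) ^ ((10 : ℕ) : ℝ)⁻¹ := by
          rw [← Real.rpow_natCast, ← Real.rpow_mul (by norm_num)]
          norm_num
        rw [this]
        calc (1.8519 : ℝ) = ((1.8519 : ℝ) ^ (10 : ℕ)) ^ ((10 : ℕ) : ℝ)⁻¹ :=
              (Real.pow_rpow_inv_natCast (by norm_num) (by norm_num)).symm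
          _ ≤ ((2 : ℝ) ^ (9 : ℕ)) ^ ((10 : ℕ) : ℝ)⁻¹ := by
              apply Real.rpow_le_rpow (by norm_num) (by norm_num) (by norm_num)
      rw [inv_le_comm₀ (by positivity) (by norm_num)]
      refine le_trans ?_ h3
      norm_num
    have h4 : 0 < 1 - t := by linarith
    rw [← Real.log_le_iff_le_exp (inv_pos.mpr h4), Real.log_inv]
    have h5 : -Real.log (1 - t) ≤ t + 3 * t ^ 2 := by
      rw [← Real.log_inv]
      have h6 := Real.log_le_sub_one_of_pos (inv_pos.mpr h4)
      refine h6.trans ?_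
      rw [show (1 - t)⁻¹ - 1 = t / (1 - t) by field_simp; ring, div_le_iff₀ h4]
      nlinarith [mul_nonneg htp.le htp.le, mul_nonneg (mul_nonneg htp.le htp.le) htp.le]
    refine h5.trans ?_
    -- first-order term
    have h7 : t ≤ 1 / p + η * Real.exp X * (Real.log p / p) := by
      rw [ht1, hx]
      have h8 : Real.exp (η * Real.log p) ≤ 1 + (η * Real.log p) * Real.exp X := by
        have h8' : η * Real.log p ≤ X := mul_le_mul_of_nonneg_left hlogpz h0.le
        set x := η * Real.log p with hxdef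
        have hx0 : 0 ≤ x := by positivity
        -- `exp x - 1 ≤ x exp x`
        have h9 : 1 - x ≤ Real.exp (-x) := by
          have := Real.add_one_le_exp (-x)
          linarith
        have h10 : (1 - x) * Real.exp x ≤ 1 := by
          calc (1 - x) * Real.exp x ≤ Real.exp (-x) * Real.exp x :=
                mul_le_mul_of_nonneg_right h9 (Real.exp_pos _).le
            _ = 1 := by rw [← Real.exp_add]; simp
        have h11 : x * Real.exp x ≤ x * Real.exp X :=
          mul_le_mul_of_nonneg_left (Real.exp_le_exp.mpr h8') hx0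
        linarith
      calc Real.exp (η * Real.log p) / p ≤ (1 + (η * Real.log p) * Real.exp X) / p :=
            div_le_div_of_nonneg_right h8 hp0.le
        _ = 1 / p + η * Real.exp X * (Real.log p / p) := by ring
    have h12 : t ^ 2 ≤ (p : ℝ) ^ (-(3 / 2 : ℝ)) := by
      rw [ht, ← Real.rpow_natCast, ← Real.rpow_mul hp0.le]
      apply Real.rpow_le_rpow_of_exponent_le (by linarith)
      push_cast
      linarith
    linarith
  have hpos : ∀ p ∈ primesUpTo z, 0 ≤ (1 - (p : ℝ) ^ (-(1 - η)))⁻¹ := by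
    intro p hp
    have hp' := mem_primesUpTo.mp hp
    have hp1 : (1 : ℝ) < p := by exact_mod_cast hp'.1.one_lt
    have := Real.rpow_lt_one_of_one_lt_of_neg hp1 (show -(1 - η) < 0 by linarith)
    rw [inv_nonneg]
    linarith
  calc ∏ p ∈ primesUpTo z, (1 - (p : ℝ) ^ (-(1 - η)))⁻¹
      ≤ ∏ p ∈ primesUpTo z, Real.exp (1 / p + η * Real.exp X * (Real.log p / p) +
          3 * (p : ℝ) ^ (-(3 / 2 : ℝ))) := Finset.prod_le_prod hpos key
    _ = Real.exp (∑ p ∈ primesUpTo z, (1 : ℝ) / p +
          η * Real.exp X * ∑ p ∈ primesUpTo z, Real.log p / p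
          + 3 * ∑ p ∈ primesUpTo z, (p : ℝ) ^ (-(3 / 2 : ℝ))) := by
        rw [← Real.exp_sum, Finset.sum_add_distrib, Finset.sum_add_distrib, ← Finset.mul_sum,
          ← Finset.mul_sum]
    _ ≤ Real.exp ((20 + η * Real.exp X * (Real.log z + 2)) + Real.log (Real.log z)) := by
        apply Real.exp_le_exp.mpr
        have h5 := sum_inv_primes_le z hz
        have h6 := sum_three_half_le z
        have h7 := sum_log_div_le z (by omega)
        have h9 : Real.log 4 ≤ 2 := by
          have : Real.log 4 = 2 * Real.log 2 := by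
            rw [show (4 : ℝ) = 2 ^ 2 by norm_num, Real.log_pow]; norm_num
          have h2' := Real.log_two_lt_d9
          linarith
        have h8 : η * Real.exp X * ∑ p ∈ primesUpTo z, Real.log p / p ≤
            η * Real.exp X * (Real.log z + 2) :=
          mul_le_mul_of_nonneg_left (h7.trans (by linarith)) (by positivity)
        linarith
    _ = Real.exp (20 + η * Real.exp X * (Real.log z + 2)) * Real.log z := by
        rw [Real.exp_add, Real.exp_log hlogz]

/-- Rankin's bound. -/
theorem smooth_le' (z U : ℕ) (hz : 2 ≤ z) (η : ℝ) (h0 : 0 < η) (h1 : η ≤ 1 / 10) :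
    (((Finset.Icc 1 U).filter (fun n => ∀ p ∈ n.primeFactors, p ≤ z)).card : ℝ)
      ≤ (U : ℝ) ^ (1 - η) *
        (Real.exp (20 + η * Real.exp (η * Real.log z) * (Real.log z + 2)) * Real.log z) :=
  (rankin (1 - η) (by linarith) z U).trans
    (mul_le_mul_of_nonneg_left (euler_le' z hz η h0 h1) (by positivity))

end Pool.Agent.H7R
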